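import Pool.Agent.Helper84_HGC.Defs

/-!
# The covers of a poset and the back-and-forth system
-/

set_option autoImplicit false

open FirstOrder FirstOrder.Language

namespace Pool.Agent.HGC

/-- relation symbols -/
inductive CRel : ℕ → Type
  | F (n t : ℕ) : CRel 2

/-- the language of the covers -/
def LC : FirstOrder.Language.{0, 0} := ⟨fun _ => Empty, CRel⟩

instance : LC.IsRelational := fun _ => inferInstanceAs (IsEmpty Empty)

section
variable {P : Type} [PartialOrder P]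

open Classical in
/-- the cocycle -/
noncomputable def rho (x y : P) : ℤ := if x < y then 1 else if y < x then -1 else 0

theorem rho_self (x : P) : rho x x = 0 := by simp [rho]

theorem rho_anti (x y : P) : rho y x = - rho x y := by
  unfold rho
  by_cases h1 : x < y
  · simp [h1, h1.not_gt]
  · by_cases h2 : y < x
    · simp [h2, h1]
    · simp [h1, h2]

theorem rho_one {x y : P} : rho x y = 1 ↔ x < y := by
  unfold rho
  by_cases h1 : x < y
  · simp [h1]
  · by_cases h2 : y < x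
    · simp [h1, h2]
    · simp [h1, h2]

theorem rho_neg {x y : P} : rho x y = -1 ↔ y < x := by
  rw [← rho_one, rho_anti y x]
  constructor <;> intro h <;> linarith

theorem rho_vals (x y : P) : rho x y = 1 ∨ rho x y = -1 ∨ rho x y = 0 := by
  unfold rho
  by_cases h1 : x < y
  · simp [h1]
  · by_cases h2 : y < x
    · simp [h1, h2]
    · simp [h1, h2]

end

/-- the universe of the cover: elements `(n, p, i)` with `i < n + 7`, and further elements `V` -/
def Cov (P V : Type) : Type := V ⊕ {t : ℕ × P × ℕ // t.2.2 < t.1 + 7}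

/-- `z` is the point `p` at the level `i` of the piece `n` -/
def At {P V : Type} (n : ℕ) (z : Cov P V) (p : P) (i : ℕ) : Prop :=
  ∃ h : i < n + 7, z = Sum.inr ⟨(n, p, i), h⟩

variable {P V : Type}

theorem At.inj {n n' : ℕ} {z : Cov P V} {p p' : P} {i i' : ℕ} (h : At n z p i)
    (h' : At n' z p' i') : n = n' ∧ p = p' ∧ i = i' := by
  obtain ⟨h1, rfl⟩ := h
  obtain ⟨h2, h3⟩ := h'
  have h4 := congrArg Subtype.val (Sum.inr.inj h3)
  simp only [Prod.mk.injEq] at h4
  exact ⟨h4.1, h4.2.1, h4.2.2⟩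

theorem At.eq {n : ℕ} {z z' : Cov P V} {p : P} {i : ℕ} (h : At n z p i) (h' : At n z' p i) :
    z = z' := by
  obtain ⟨h1, rfl⟩ := h
  obtain ⟨h2, rfl⟩ := h'
  rfl

theorem At.lt {n : ℕ} {z : Cov P V} {p : P} {i : ℕ} (h : At n z p i) : i < n + 7 := h.1

theorem cov_cases (z : Cov P V) : (∃ v : V, z = Sum.inl v) ∨ ∃ n p i, At n z p i := by
  rcases z with v | ⟨⟨n, p, i⟩, h⟩
  · exact Or.inl ⟨v, rfl⟩
  · exact Or.inr ⟨n, p, i, h, rfl⟩

theorem not_at_inl {n : ℕ} {v : V} {p : P} {i : ℕ} : ¬ At n (Sum.inl v : Cov P V) p i := by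
  rintro ⟨_, h⟩
  cases h

variable [PartialOrder P]

/-- the relation `t` of piece `n` -/
def RelF (n t : ℕ) (z w : Cov P V) : Prop :=
  ∃ p i q j, At n z p i ∧ At n w q j ∧ ((j : ℤ) - i ≡ rho p q + t [ZMOD (n + 7 : ℕ)])

instance covStr : LC.Structure (Cov P V) where
  funMap := fun {_} f _ => f.elim
  RelMap := fun {_} R => match R with
    | CRel.F n t => fun x => RelF n t (x 0) (x 1)

theorem relMap_F (n t : ℕ) (x : Fin 2 → Cov P V) :
    Structure.RelMap (L := LC) (CRel.F n t : LC.Relations 2) x ↔ RelF n t (x 0) (x 1) := Iff.rfl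

/-- the back-and-forth system: sets of pairs, in each piece turned by a function `s` with values
`0, 1` and rotated by a constant `c` -/
structure BF (Γ : Set (Cov P V × Cov P V)) : Prop where
  at_iff : ∀ ab ∈ Γ, ∀ n, (∃ p i, At n ab.1 p i) ↔ (∃ p i, At n ab.2 p i)
  inl_eq : ∀ ab ∈ Γ, ∀ cd ∈ Γ, (∀ n p i, ¬ At n ab.1 p i) → (∀ n p i, ¬ At n cd.1 p i) →
    (ab.1 = cd.1 ↔ ab.2 = cd.2)
  piece : ∀ n, ∃ (s : P → P → ℤ) (c : ℤ), (∀ p p', s p p' = 0 ∨ s p p' = 1) ∧
    (∀ ab ∈ Γ, ∀ p i p' i', At n ab.1 p i → At n ab.2 p' i' →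
      ((i' : ℤ) ≡ i + c + s p p' [ZMOD (n + 7 : ℕ)])) ∧
    (∀ ab ∈ Γ, ∀ cd ∈ Γ, ∀ p i p' i' q j q' j', At n ab.1 p i → At n ab.2 p' i' →
      At n cd.1 q j → At n cd.2 q' j' →
      (p = q ↔ p' = q') ∧ rho p' q' = rho p q + s q q' - s p p')

theorem BF.mono {Γ Δ : Set (Cov P V × Cov P V)} (h : BF Γ) (hs : Δ ⊆ Γ) : BF Δ where
  at_iff := fun ab hab => h.at_iff ab (hs hab)
  inl_eq := fun ab hab cd hcd => h.inl_eq ab (hs hab) cd (hs hcd)
  piece := fun n => by
    obtain ⟨s, c, h1, h2, h3⟩ := h.piece n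
    exact ⟨s, c, h1, fun ab hab => h2 ab (hs hab), fun ab hab cd hcd => h3 ab (hs hab) cd (hs hcd)⟩

theorem BF.swap {Γ : Set (Cov P V × Cov P V)} (h : BF Γ) : BF (Prod.swap '' Γ) where
  at_iff := by
    rintro _ ⟨ab, hab, rfl⟩ n
    exact (h.at_iff ab hab n).symm
  inl_eq := by
    rintro _ ⟨ab, hab, rfl⟩ _ ⟨cd, hcd, rfl⟩ h1 h2
    simp only [Prod.fst_swap, Prod.snd_swap] at h1 h2 ⊢
    refine (h.inl_eq ab hab cd hcd ?_ ?_).symm
    · intro n p i hh
      obtain ⟨p', i', hh'⟩ := (h.at_iff ab hab n).1 ⟨p, i, hh⟩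
      exact h1 n p' i' hh'
    · intro n p i hh
      obtain ⟨p', i', hh'⟩ := (h.at_iff cd hcd n).1 ⟨p, i, hh⟩
      exact h2 n p' i' hh'
  piece := by
    intro n
    obtain ⟨s, c, h1, h2, h3⟩ := h.piece n
    refine ⟨fun p p' => 1 - s p' p, -c - 1, ?_, ?_, ?_⟩
    · intro p p'
      rcases h1 p' p with h | h <;> simp [h]
    · rintro _ ⟨ab, hab, rfl⟩ p i p' i' hp hp'
      have h4 := h2 ab hab p' i' p i hp' hp
      have h5 : (i' : ℤ) = (i' + c + s p' p) + (-c - s p' p) := by ring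
      have h6 : (i : ℤ) + (-c - 1) + (1 - s p' p) = i + (-c - s p' p) := by ring
      rw [h5, h6]
      exact Int.ModEq.add_right _ h4.symm
    · rintro _ ⟨ab, hab, rfl⟩ _ ⟨cd, hcd, rfl⟩ p i p' i' q j q' j' hp hp' hq hq'
      obtain ⟨h4, h5⟩ := h3 ab hab cd hcd p' i' p i q' j' q j hp' hp hq' hq
      exact ⟨h4.symm, by rw [h5]; ring⟩

/-! ### Atomic formulas -/

theorem level_eq {n i j : ℕ} (hi : i < n + 7) (hj : j < n + 7)
    (h : (i : ℤ) ≡ j [ZMOD (n + 7 : ℕ)]) : i = j := by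
  have := Int.natCast_modEq_iff.1 h
  exact Nat.ModEq.eq_of_lt_of_lt this hi hj

theorem BF.eq_iff {Γ : Set (Cov P V × Cov P V)} (h : BF Γ) {ab cd : Cov P V × Cov P V}
    (hab : ab ∈ Γ) (hcd : cd ∈ Γ) : ab.1 = cd.1 ↔ ab.2 = cd.2 := by
  by_cases h1 : ∃ n p i, At n ab.1 p i
  · obtain ⟨n, p, i, hp⟩ := h1
    obtain ⟨p', i', hp'⟩ := (h.at_iff ab hab n).1 ⟨p, i, hp⟩
    by_cases h2 : ∃ q j, At n cd.1 q j
    · obtain ⟨q, j, hq⟩ := h2
      obtain ⟨q', j', hq'⟩ := (h.at_iff cd hcd n).1 ⟨q, j, hq⟩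
      obtain ⟨s, c, h3, h4, h5⟩ := h.piece n
      obtain ⟨e1, e2⟩ := h5 ab hab cd hcd p i p' i' q j q' j' hp hp' hq hq'
      have l1 := h4 ab hab p i p' i' hp hp'
      have l2 := h4 cd hcd q j q' j' hq hq'
      constructor
      · intro he
        obtain ⟨-, rfl, rfl⟩ := hp.inj (he ▸ hq)
        have e3 : p' = q' := e1.1 rfl
        subst e3
        have e4 : i' = j' := level_eq hp'.lt hq'.lt (l1.trans l2.symm)
        subst e4
        exact hp'.eq hq'
      · intro he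
        obtain ⟨-, rfl, rfl⟩ := hp'.inj (he ▸ hq')
        have e3 : p = q := e1.2 rfl
        subst e3
        have e4 : i = j := by
          refine level_eq hp.lt hq.lt ?_
          have := l1.symm.trans l2
          have h6 := Int.ModEq.add_right (-(c + s p p')) this
          have e5 : (i : ℤ) + c + s p p' + -(c + s p p') = i := by ring
          have e6 : (j : ℤ) + c + s p p' + -(c + s p p') = j := by ring
          rwa [e5, e6] at h6
        subst e4
        exact hp.eq hq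
    · constructor
      · intro he
        exact absurd ⟨p, i, he ▸ hp⟩ h2
      · intro he
        exact absurd ((h.at_iff cd hcd n).2 ⟨p', i', he ▸ hp'⟩) h2
  · have h1' : ∀ n p i, ¬ At n ab.1 p i := fun n p i hh => h1 ⟨n, p, i, hh⟩
    by_cases h2 : ∃ n p i, At n cd.1 p i
    · obtain ⟨n, q, j, hq⟩ := h2
      obtain ⟨q', j', hq'⟩ := (h.at_iff cd hcd n).1 ⟨q, j, hq⟩
      constructor
      · intro he
        exact absurd (he ▸ hq) (h1' n q j)
      · intro he
        obtain ⟨p, i, hp⟩ := (h.at_iff ab hab n).2 ⟨q', j', he ▸ hq'⟩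
        exact absurd hp (h1' n p i)
    · exact h.inl_eq ab hab cd hcd h1' (fun n p i hh => h2 ⟨n, p, i, hh⟩)

theorem BF.relF {Γ : Set (Cov P V × Cov P V)} (h : BF Γ) {ab cd : Cov P V × Cov P V}
    (hab : ab ∈ Γ) (hcd : cd ∈ Γ) (n t : ℕ) : RelF n t ab.1 cd.1 → RelF n t ab.2 cd.2 := by
  rintro ⟨p, i, q, j, hp, hq, hm⟩
  obtain ⟨p', i', hp'⟩ := (h.at_iff ab hab n).1 ⟨p, i, hp⟩
  obtain ⟨q', j', hq'⟩ := (h.at_iff cd hcd n).1 ⟨q, j, hq⟩
  obtain ⟨s, c, h3, h4, h5⟩ := h.piece n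
  obtain ⟨e1, e2⟩ := h5 ab hab cd hcd p i p' i' q j q' j' hp hp' hq hq'
  have l1 := h4 ab hab p i p' i' hp hp'
  have l2 := h4 cd hcd q j q' j' hq hq'
  refine ⟨p', i', q', j', hp', hq', ?_⟩
  rw [e2]
  have h6 := l2.sub l1
  refine h6.trans ?_
  have e3 : (j : ℤ) + c + s q q' - (i + c + s p p') = (j - i) + (s q q' - s p p') := by ring
  have e4 : rho p q + s q q' - s p p' + t = rho p q + t + (s q q' - s p p') := by ring
  rw [e3, e4]
  exact Int.ModEq.add_right _ hm

/-! ### The extension step -/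

theorem transp {P : Type} [PartialOrder P] (s : P → ℤ) (F : Set P) (hs : ∀ x, s x = 0 ∨ s x = 1)
    (hr : ∀ x ∈ F, ∀ y ∈ F, rho x y + s y - s x ≤ 1) {x y z : P} (hx : x ∈ F) (hy : y ∈ F)
    (hz : z ∈ F) (h1 : rho x y + s y - s x = 1) (h2 : rho y z + s z - s y = 1) :
    rho x z + s z - s x = 1 := by
  have a1 := hr x hx z hz
  have a2 := hr z hz x hx
  have a3 := hr y hy x hx
  have a4 := hr z hz y hy
  rw [rho_anti x z] at a2
  rw [rho_anti x y] at a3
  rw [rho_anti y z] at a4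
  rcases rho_vals x y with b1 | b1 | b1 <;> rcases rho_vals y z with b2 | b2 | b2 <;>
    rcases rho_vals x z with b3 | b3 | b3 <;>
    rcases hs x with c1 | c1 <;> rcases hs y with c2 | c2 <;> rcases hs z with c3 | c3 <;>
    first
    | (rw [b3, c1, c3]; norm_num; done)
    | (exfalso; rw [b1, c1, c2] at h1; omega)
    | (exfalso; rw [b2, c2, c3] at h2; omega)
    | (exfalso; rw [b3, c1, c3] at a1; omega)
    | (exfalso; rw [b3, c1, c3] at a2; omega)
    | (exfalso
       rw [rho_one] at b1 b2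
       have := rho_one.2 (b1.trans b2)
       omega)
    | (exfalso
       rw [rho_one] at b1
       rw [rho_neg] at b3
       have := rho_neg.2 (b3.trans b1)
       omega)
    | (exfalso
       rw [rho_one] at b2
       rw [rho_neg] at b3
       have := rho_neg.2 (b2.trans b3)
       omega)

end Pool.Agent.HGC
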