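import Mathlib

/-!
# Lascar distance, G-compactness, interpretations, generic posets (MP_fc602f_lc)
-/

set_option autoImplicit false

open FirstOrder FirstOrder.Language

namespace Pool.Agent.HGC

/-- The tuples `a` and `b` (indexed by `ι`) have the same type over the elementary substructure
`S` of `D`: they satisfy the same formulas with parameters in `S`. -/
def SameType {L : FirstOrder.Language.{0, 0}} {D : Type} [L.Structure D] {ι : Type}
    (S : L.ElementarySubstructure D) (a b : ι → D) : Prop :=
  ∀ φ : L.Formula (ι ⊕ S), φ.Realize (Sum.elim a (fun s : S => (s : D))) ↔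
    φ.Realize (Sum.elim b (fun s : S => (s : D)))

/-- `d_L(a, b) ≤ n` for tuples `a, b` of elements of `C`, computed in an elementary extension of
`C` (equivalently in a monster model which contains `C`). -/
def DistLE {L : FirstOrder.Language.{0, 0}} {C : Type} [L.Structure C] {ι : Type} (n : ℕ)
    (a b : ι → C) : Prop :=
  ∃ (D : Type) (_ : L.Structure D) (e : C ↪ₑ[L] D) (c : ℕ → ι → D)
    (S : ℕ → L.ElementarySubstructure D),
    c 0 = e ∘ a ∧ c n = e ∘ b ∧ ∀ i < n, SameType (S i) (c i) (c (i + 1))

/-- The theory `T` is G-compact: for every tuple `a` there is `n` such that `d_L(a, b) < ∞`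
implies `d_L(a, b) ≤ n`. The tuple `a` lives in a model `C` and `b` in an elementary extension
of `C`. -/
def GCompact {L : FirstOrder.Language.{0, 0}} (T : L.Theory) : Prop :=
  ∀ (C : Type) (_ : L.Structure C), C ⊨ T → ∀ (ι : Type) (a : ι → C), ∃ n : ℕ,
    ∀ (C' : Type) (_ : L.Structure C') (e : C ↪ₑ[L] C') (b : ι → C'),
      (∃ m : ℕ, DistLE (L := L) m (e ∘ a) b) → DistLE (L := L) n (e ∘ a) b

/-- A set of tuples is definable with parameters (Mathlib's `Set.Definable` with parameters from
the whole structure). -/
def Defin (L : FirstOrder.Language.{0, 0}) {M : Type} [L.Structure M] {α : Type}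
    (X : Set (α → M)) : Prop :=
  (Set.univ : Set M).Definable L X

/-- The structure `N` (in the language `L'`) is interpretable with parameters in the structure
`M`: there are a definable set `D` of tuples (indexed by the finite set `κ`) and a map `f` which
maps `D` onto `N`, such that the preimages of the equality, of the relations and of the graphs
of the functions of `N` are definable with parameters. -/
def Interpretable (L : FirstOrder.Language.{0, 0}) (M : Type) [L.Structure M]
    (L' : FirstOrder.Language.{0, 0}) (N : Type) [L'.Structure N] : Prop :=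
  ∃ (κ : Type) (_ : Finite κ) (D : Set (κ → M)) (f : (κ → M) → N),
    Defin L D ∧ f '' D = Set.univ ∧
    Defin L {v : Fin 2 × κ → M | (∀ i, (fun k => v (i, k)) ∈ D) ∧
      f (fun k => v (0, k)) = f (fun k => v (1, k))} ∧
    (∀ (n : ℕ) (R : L'.Relations n), Defin L {v : Fin n × κ → M |
      (∀ i, (fun k => v (i, k)) ∈ D) ∧
        Structure.RelMap R (fun i => f (fun k => v (i, k)))}) ∧
    (∀ (n : ℕ) (F : L'.Functions n), Defin L {v : Option (Fin n) × κ → M |
      (∀ i, (fun k => v (i, k)) ∈ D) ∧
        f (fun k => v (none, k)) = Structure.funMap F (fun i => f (fun k => v (some i, k)))})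

/-- The theory `T` is hereditarily G-compact. -/
def HerGCompact {L : FirstOrder.Language.{0, 0}} (T : L.Theory) : Prop :=
  ∀ (M : Type) (_ : L.Structure M), M ⊨ T → ∀ (L' : FirstOrder.Language.{0, 0}) (N : Type)
    (_ : L'.Structure N), Interpretable L M L' N → GCompact (L'.completeTheory N)

/-- The extension axioms of the generic (random) poset, for a subset `Q` of a poset: if `A`,
`B`, `C` are finite subsets of `Q` with `A < B`, no element of `C` below an element of `A` or
above an element of `B`, then there is an element of `Q` above `A`, below `B` and incomparable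
to all elements of `C`. -/
def GenericOn {P : Type} [PartialOrder P] (Q : Set P) : Prop :=
  ∀ A B C : Finset P, (↑A ⊆ Q) → (↑B ⊆ Q) → (↑C ⊆ Q) →
    (∀ a ∈ A, ∀ b ∈ B, a < b) → (∀ a ∈ A, ∀ c ∈ C, ¬ c ≤ a) → (∀ b ∈ B, ∀ c ∈ C, ¬ b ≤ c) →
    ∃ z ∈ Q, (∀ a ∈ A, a < z) ∧ (∀ b ∈ B, z < b) ∧ ∀ c ∈ C, ¬ z ≤ c ∧ ¬ c ≤ z

/-- A generic poset: every consistent finite one-point extension is realised (the countable one
is the random poset). -/
def Generic (P : Type) [PartialOrder P] : Prop := GenericOn (Set.univ : Set P)

/-- The structure `M` interprets, with parameters, the poset `P`. -/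
def InterpretsPoset (L : FirstOrder.Language.{0, 0}) (M : Type) [L.Structure M] (P : Type)
    [PartialOrder P] : Prop :=
  ∃ (κ : Type) (_ : Finite κ) (D : Set (κ → M)) (f : (κ → M) → P),
    Defin L D ∧ f '' D = Set.univ ∧
    Defin L {v : Fin 2 × κ → M | (∀ i, (fun k => v (i, k)) ∈ D) ∧
      f (fun k => v (0, k)) ≤ f (fun k => v (1, k))}

end Pool.Agent.HGC
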