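import Pool.Agent.Helper84_HGC.Cov

/-!
# The extension step of the back-and-forth system
-/

set_option autoImplicit false

open FirstOrder FirstOrder.Language

namespace Pool.Agent.HGC

variable {P V : Type} [PartialOrder P]

theorem exists_level (m : ℕ) (x : ℤ) : ∃ i : ℕ, i < m + 7 ∧ ((i : ℤ) ≡ x [ZMOD (m + 7 : ℕ)]) := by
  have h0 : (0 : ℤ) < ((m + 7 : ℕ) : ℤ) := by positivity
  have h1 := Int.emod_nonneg x h0.ne'
  have h2 := Int.emod_lt_of_pos x h0
  refine ⟨(x % ((m + 7 : ℕ) : ℤ)).toNat, ?_, ?_⟩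
  · have : ((x % ((m + 7 : ℕ) : ℤ)).toNat : ℤ) < ((m + 7 : ℕ) : ℤ) := by
      rw [Int.toNat_of_nonneg h1]; exact h2
    exact_mod_cast this
  · rw [Int.toNat_of_nonneg h1]
    exact Int.mod_modEq x _

/-- a point above the pairs: the combinatorial core -/
theorem new_point {Q : Set P} (hQ : GenericOn Q) (PP : Set (P × P)) (hfin : PP.Finite)
    (hPQ : ∀ x ∈ PP, x.2 ∈ Q) (s : P → P → ℤ) (hs : ∀ p p', s p p' = 0 ∨ s p p' = 1)
    (hPP : ∀ x ∈ PP, ∀ y ∈ PP, (x.1 = y.1 ↔ x.2 = y.2) ∧
      rho x.2 y.2 = rho x.1 y.1 + s y.1 y.2 - s x.1 x.2) (p : P) (hp : ∀ x ∈ PP, x.1 ≠ p) :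
    ∃ (σ : ℤ) (z : P), (σ = 0 ∨ σ = 1) ∧ z ∈ Q ∧ ∀ x ∈ PP, z ≠ x.2 ∧
      rho z x.2 = rho p x.1 + s x.1 x.2 - σ := by
  classical
  set σ : ℤ := if ∃ x ∈ PP, s x.1 x.2 = 1 ∧ p < x.1 then 1 else 0 with hσ
  have hσ01 : σ = 0 ∨ σ = 1 := by
    rw [hσ]; split_ifs <;> simp
  -- the function on points
  let t : P → ℤ := fun x => if x = p then σ else
    if ∃ x', (x, x') ∈ PP ∧ s x x' = 1 then 1 else 0
  have tp : t p = σ := by simp [t]
  have tx : ∀ x ∈ PP, t x.1 = s x.1 x.2 := by
    intro x hx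
    simp only [t, if_neg (hp x hx)]
    rcases hs x.1 x.2 with h | h
    · rw [h, if_neg]
      rintro ⟨x', hx', h2⟩
      have h3 := ((hPP x hx (x.1, x') hx').1).1 rfl
      simp only at h3
      rw [← h3, h] at h2
      exact zero_ne_one h2
    · rw [h, if_pos]
      exact ⟨x.2, hx, h⟩
  have ht : ∀ x, t x = 0 ∨ t x = 1 := by
    intro x
    simp only [t]
    split_ifs
    · exact hσ01
    · exact Or.inr rfl
    · exact Or.inl rfl
  let F : Set P := insert p (Prod.fst '' PP)
  have hr : ∀ x ∈ F, ∀ y ∈ F, rho x y + t y - t x ≤ 1 := by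
    have hle : ∀ a b : P, rho a b ≤ 1 := by
      intro a b
      rcases rho_vals a b with h | h | h <;> rw [h] <;> norm_num
    have old : ∀ x ∈ PP, ∀ y ∈ PP, rho x.1 y.1 + t y.1 - t x.1 ≤ 1 := by
      intro x hx y hy
      rw [tx x hx, tx y hy, ← (hPP x hx y hy).2]
      exact hle _ _
    rintro x (rfl | ⟨x, hx, rfl⟩) y (rfl | ⟨y, hy, rfl⟩)
    · rw [rho_self]; norm_num
    · by_contra hc
      have h1 := hle x y.1
      rcases hσ01 with h2 | h2
      · rcases hs y.1 y.2 with h3 | h3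
        · rw [tp, tx y hy, h2, h3] at hc
          linarith
        · rw [tp, tx y hy, h2, h3] at hc
          have h4 : rho x y.1 = 1 := by omega
          rw [rho_one] at h4
          have : σ = 1 := by rw [hσ, if_pos ⟨y, hy, h3, h4⟩]
          omega
      · rcases hs y.1 y.2 with h3 | h3 <;> rw [tp, tx y hy, h2, h3] at hc <;> linarith
    · by_contra hc
      have h1 := hle x.1 y
      rcases hσ01 with h2 | h2
      · rcases hs x.1 x.2 with h3 | h3 <;> rw [tp, tx x hx, h2, h3] at hc <;> linarith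
      · rcases hs x.1 x.2 with h3 | h3
        · rw [tp, tx x hx, h2, h3] at hc
          have h4 : rho x.1 y = 1 := by omega
          have h5 : ∃ x ∈ PP, s x.1 x.2 = 1 ∧ y < x.1 := by
            by_contra h6
            rw [hσ, if_neg h6] at h2
            exact zero_ne_one h2
          obtain ⟨r, hr, h6, h7⟩ := h5
          have h8 := old x hx r hr
          rw [tx x hx, tx r hr, h3, h6] at h8
          have h9 : rho x.1 r.1 = 1 := rho_one.2 ((rho_one.1 h4).trans h7)
          rw [h9] at h8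
          norm_num at h8
        · rw [tp, tx x hx, h2, h3] at hc
          linarith
    · exact old x hx y hy
  have memF : ∀ x ∈ PP, x.1 ∈ F := fun x hx => Set.mem_insert_of_mem _ ⟨x, hx, rfl⟩
  have memp : p ∈ F := Set.mem_insert _ _
  -- desired values
  let T : P × P → ℤ := fun x => rho p x.1 + s x.1 x.2 - σ
  have T1 : ∀ x ∈ PP, T x = 1 ∨ T x = -1 ∨ T x = 0 := by
    intro x hx
    have h1 := hr p memp x.1 (memF x hx)
    have h2 := hr x.1 (memF x hx) p memp
    rw [tp, tx x hx] at h1 h2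
    rw [rho_anti p x.1] at h2
    show rho p x.1 + s x.1 x.2 - σ = 1 ∨ rho p x.1 + s x.1 x.2 - σ = -1 ∨
      rho p x.1 + s x.1 x.2 - σ = 0
    omega
  let S := hfin.toFinset
  have memS : ∀ x, x ∈ S ↔ x ∈ PP := fun x => hfin.mem_toFinset
  let A := (S.filter (fun x => T x = -1)).image Prod.snd
  let B := (S.filter (fun x => T x = 1)).image Prod.snd
  let C := (S.filter (fun x => T x = 0)).image Prod.snd
  have mA : ∀ z, z ∈ A → ∃ x ∈ PP, T x = -1 ∧ x.2 = z := by
    intro z hz
    obtain ⟨x, hx, rfl⟩ := Finset.mem_image.1 hz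
    obtain ⟨h1, h2⟩ := Finset.mem_filter.1 hx
    exact ⟨x, (memS x).1 h1, h2, rfl⟩
  have mB : ∀ z, z ∈ B → ∃ x ∈ PP, T x = 1 ∧ x.2 = z := by
    intro z hz
    obtain ⟨x, hx, rfl⟩ := Finset.mem_image.1 hz
    obtain ⟨h1, h2⟩ := Finset.mem_filter.1 hx
    exact ⟨x, (memS x).1 h1, h2, rfl⟩
  have mC : ∀ z, z ∈ C → ∃ x ∈ PP, T x = 0 ∧ x.2 = z := by
    intro z hz
    obtain ⟨x, hx, rfl⟩ := Finset.mem_image.1 hz
    obtain ⟨h1, h2⟩ := Finset.mem_filter.1 hx
    exact ⟨x, (memS x).1 h1, h2, rfl⟩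
  have val : ∀ x ∈ PP, ∀ y ∈ PP, rho x.2 y.2 = rho x.1 y.1 + t y.1 - t x.1 := by
    intro x hx y hy
    rw [tx x hx, tx y hy]
    exact (hPP x hx y hy).2
  have down : ∀ x ∈ PP, T x = -1 → rho x.1 p + t p - t x.1 = 1 := by
    intro x hx h
    rw [tp, tx x hx, rho_anti p x.1]
    have : rho p x.1 + s x.1 x.2 - σ = -1 := h
    linarith
  have up : ∀ x ∈ PP, T x = 1 → rho p x.1 + t x.1 - t p = 1 := by
    intro x hx h
    rw [tp, tx x hx]
    exact h
  obtain ⟨z, hzQ, hzA, hzB, hzC⟩ := hQ A B C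
    (by intro z hz; obtain ⟨x, hx, -, rfl⟩ := mA z hz; exact hPQ x hx)
    (by intro z hz; obtain ⟨x, hx, -, rfl⟩ := mB z hz; exact hPQ x hx)
    (by intro z hz; obtain ⟨x, hx, -, rfl⟩ := mC z hz; exact hPQ x hx)
    (by
      intro a ha b hb
      obtain ⟨x, hx, hx1, rfl⟩ := mA a ha
      obtain ⟨y, hy, hy1, rfl⟩ := mB b hb
      rw [← rho_one, val x hx y hy]
      exact transp t F ht hr (memF x hx) memp (memF y hy) (down x hx hx1) (up y hy hy1))
    (by
      intro a ha c hc hle
      obtain ⟨x, hx, hx1, rfl⟩ := mA a ha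
      obtain ⟨y, hy, hy1, rfl⟩ := mC c hc
      rcases hle.eq_or_lt with h | h
      · have h1 : y = x := Prod.ext ((hPP y hy x hx).1.2 h) h
        subst h1
        omega
      · rw [← rho_one, val y hy x hx] at h
        have h1 := transp t F ht hr (memF y hy) (memF x hx) memp h (down x hx hx1)
        rw [tp, tx y hy, rho_anti p y.1] at h1
        have h2 : rho p y.1 + s y.1 y.2 - σ = 0 := hy1
        omega)
    (by
      intro b hb c hc hle
      obtain ⟨x, hx, hx1, rfl⟩ := mB b hb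
      obtain ⟨y, hy, hy1, rfl⟩ := mC c hc
      rcases hle.eq_or_lt with h | h
      · have h1 : x = y := Prod.ext ((hPP x hx y hy).1.2 h) h
        subst h1
        omega
      · rw [← rho_one, val x hx y hy] at h
        have h1 := transp t F ht hr memp (memF x hx) (memF y hy) (up x hx hx1) h
        rw [tp, tx y hy] at h1
        have h2 : rho p y.1 + s y.1 y.2 - σ = 0 := hy1
        omega)
  refine ⟨σ, z, hσ01, hzQ, fun x hx => ?_⟩
  rcases T1 x hx with h | h | h
  · have h1 : x.2 ∈ B := Finset.mem_image.2 ⟨x, Finset.mem_filter.2 ⟨(memS x).2 hx, h⟩, rfl⟩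
    have h2 := hzB _ h1
    refine ⟨h2.ne, ?_⟩
    rw [rho_one.2 h2]
    exact h.symm
  · have h1 : x.2 ∈ A := Finset.mem_image.2 ⟨x, Finset.mem_filter.2 ⟨(memS x).2 hx, h⟩, rfl⟩
    have h2 := hzA _ h1
    refine ⟨h2.ne', ?_⟩
    rw [rho_neg.2 h2]
    exact h.symm
  · have h1 : x.2 ∈ C := Finset.mem_image.2 ⟨x, Finset.mem_filter.2 ⟨(memS x).2 hx, h⟩, rfl⟩
    obtain ⟨h2, h3⟩ := hzC _ h1
    refine ⟨fun h4 => h2 h4.le, ?_⟩
    have h4 : rho z x.2 = 0 := by
      rcases rho_vals z x.2 with h5 | h5 | h5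
      · exact absurd (rho_one.1 h5).le h2
      · exact absurd (rho_neg.1 h5).le h3
      · exact h5
    rw [h4]
    exact h.symm

theorem BF.forth {Γ : Set (Cov P V × Cov P V)} (h : BF Γ) (hf : Γ.Finite) {Q : Set P}
    (hQ : GenericOn Q) [Infinite V] (hov : ∀ ab ∈ Γ, ∀ n p i, At n ab.2 p i → p ∈ Q)
    (a : Cov P V) : ∃ b, (∀ n p i, At n b p i → p ∈ Q) ∧ BF (insert (a, b) Γ) := by
  classical
  by_cases hold : ∃ ab ∈ Γ, ab.1 = a
  · obtain ⟨ab, hab, rfl⟩ := hold
    refine ⟨ab.2, hov ab hab, ?_⟩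
    rw [Set.insert_eq_of_mem (by exact hab)]
    exact h
  have hnew : ∀ ab ∈ Γ, ab.1 ≠ a := fun ab hab he => hold ⟨ab, hab, he⟩
  rcases cov_cases a with ⟨v, rfl⟩ | ⟨m, p, i, hp⟩
  · -- an element outside the pieces
    have hfin : {v' : V | ∃ ab ∈ Γ, ab.2 = Sum.inl v'}.Finite := by
      have h1 : ((fun ab : Cov P V × Cov P V => ab.2) '' Γ).Finite := hf.image _
      refine (h1.preimage (f := (Sum.inl : V → Cov P V)) Sum.inl_injective.injOn).subset ?_
      rintro v' ⟨ab, hab, he⟩
      exact ⟨ab, hab, he⟩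
    obtain ⟨v', hv'⟩ := hfin.infinite_compl.nonempty
    have hv'' : ∀ ab ∈ Γ, ab.2 ≠ Sum.inl v' := fun ab hab he => hv' ⟨ab, hab, he⟩
    refine ⟨Sum.inl v', fun n p i hh => absurd hh not_at_inl, ?_⟩
    refine ⟨?_, ?_, ?_⟩
    · rintro ab (rfl | hab) n
      · constructor
        · rintro ⟨p, i, hh⟩; exact absurd hh not_at_inl
        · rintro ⟨p, i, hh⟩; exact absurd hh not_at_inl
      · exact h.at_iff ab hab n
    · rintro ab (rfl | hab) cd (rfl | hcd) h1 h2
      · simp
      · constructor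
        · intro he; exact absurd he.symm (hnew cd hcd)
        · intro he; exact absurd he.symm (hv'' cd hcd)
      · constructor
        · intro he; exact absurd he (hnew ab hab)
        · intro he; exact absurd he (hv'' ab hab)
      · exact h.inl_eq ab hab cd hcd h1 h2
    · intro n
      obtain ⟨s, c, h1, h2, h3⟩ := h.piece n
      refine ⟨s, c, h1, ?_, ?_⟩
      · rintro ab (rfl | hab) p i p' i' hp hp'
        · exact absurd hp not_at_inl
        · exact h2 ab hab p i p' i' hp hp'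
      · rintro ab (rfl | hab) cd (rfl | hcd) p i p' i' q j q' j' hp hp' hq hq'
        · exact absurd hp not_at_inl
        · exact absurd hp not_at_inl
        · exact absurd hq not_at_inl
        · exact h3 ab hab cd hcd p i p' i' q j q' j' hp hp' hq hq'
  · obtain ⟨s, c, h1, h2, h3⟩ := h.piece m
    -- the new pair, once `p'` and the value `σ` are known
    have key : ∀ (p' : P) (s' : P → P → ℤ), p' ∈ Q → (∀ x x', s' x x' = 0 ∨ s' x x' = 1) →
        (∀ cd ∈ Γ, ∀ q j q' j', At m cd.1 q j → At m cd.2 q' j' → s' q q' = s q q') →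
        (∀ cd ∈ Γ, ∀ q j q' j', At m cd.1 q j → At m cd.2 q' j' →
          (p = q ↔ p' = q') ∧ rho p' q' = rho p q + s' q q' - s' p p') →
        ∃ b, (∀ n p i, At n b p i → p ∈ Q) ∧ BF (insert (a, b) Γ) := by
      intro p' s' hp'Q hs' hss hpp
      obtain ⟨i', hi', hmod⟩ := exists_level m ((i : ℤ) + c + s' p p')
      set b : Cov P V := Sum.inr ⟨(m, p', i'), hi'⟩ with hb
      have hbAt : At m b p' i' := ⟨hi', rfl⟩
      refine ⟨b, ?_, ?_⟩
      · intro n q j hh
        obtain ⟨-, rfl, -⟩ := hbAt.inj hh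
        exact hp'Q
      refine ⟨?_, ?_, ?_⟩
      · rintro ab (rfl | hab) n
        · by_cases hn : n = m
          · subst hn
            exact ⟨fun _ => ⟨p', i', hbAt⟩, fun _ => ⟨p, i, hp⟩⟩
          · constructor
            · rintro ⟨q, j, hh⟩
              exact absurd (hh.inj hp).1 hn
            · rintro ⟨q, j, hh⟩
              exact absurd (hh.inj hbAt).1 hn
        · exact h.at_iff ab hab n
      · rintro ab (rfl | hab) cd (rfl | hcd) h4 h5
        · exact absurd hp (h4 m p i)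
        · exact absurd hp (h4 m p i)
        · exact absurd hp (h5 m p i)
        · exact h.inl_eq ab hab cd hcd h4 h5
      · intro n
        by_cases hn : n = m
        · subst hn
          refine ⟨s', c, hs', ?_, ?_⟩
          · rintro ab (rfl | hab) q j q' j' hq hq'
            · obtain ⟨-, rfl, rfl⟩ := hp.inj hq
              obtain ⟨-, rfl, rfl⟩ := hbAt.inj hq'
              exact hmod
            · rw [hss ab hab q j q' j' hq hq']
              exact h2 ab hab q j q' j' hq hq'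
          · rintro ab (rfl | hab) cd (rfl | hcd) x j x' j' y k y' k' hx hx' hy hy'
            · obtain ⟨-, rfl, rfl⟩ := hp.inj hx
              obtain ⟨-, rfl, rfl⟩ := hbAt.inj hx'
              obtain ⟨-, rfl, rfl⟩ := hp.inj hy
              obtain ⟨-, rfl, rfl⟩ := hbAt.inj hy'
              refine ⟨by simp, ?_⟩
              rw [rho_self, rho_self]; ring
            · obtain ⟨-, rfl, rfl⟩ := hp.inj hx
              obtain ⟨-, rfl, rfl⟩ := hbAt.inj hx'
              exact hpp cd hcd y k y' k' hy hy'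
            · obtain ⟨-, rfl, rfl⟩ := hp.inj hy
              obtain ⟨-, rfl, rfl⟩ := hbAt.inj hy'
              obtain ⟨e1, e2⟩ := hpp ab hab x j x' j' hx hx'
              refine ⟨⟨fun h => (e1.1 h.symm).symm, fun h => (e1.2 h.symm).symm⟩, ?_⟩
              rw [rho_anti p' x', rho_anti p x, e2]
              ring
            · rw [hss ab hab x j x' j' hx hx', hss cd hcd y k y' k' hy hy']
              exact h3 ab hab cd hcd x j x' j' y k y' k' hx hx' hy hy'
        · obtain ⟨s₂, c₂, g1, g2, g3⟩ := h.piece n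
          refine ⟨s₂, c₂, g1, ?_, ?_⟩
          · rintro ab (rfl | hab) q j q' j' hq hq'
            · exact absurd (hq.inj hp).1 hn
            · exact g2 ab hab q j q' j' hq hq'
          · rintro ab (rfl | hab) cd (rfl | hcd) x j x' j' y k y' k' hx hx' hy hy'
            · exact absurd (hx.inj hp).1 hn
            · exact absurd (hx.inj hp).1 hn
            · exact absurd (hy.inj hp).1 hn
            · exact g3 ab hab cd hcd x j x' j' y k y' k' hx hx' hy hy'
    by_cases hpt : ∃ ab ∈ Γ, ∃ k, At m ab.1 p k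
    · -- the point occurs already
      obtain ⟨ab, hab, k, hk⟩ := hpt
      obtain ⟨p', k', hk'⟩ := (h.at_iff ab hab m).1 ⟨p, k, hk⟩
      refine key p' s (hov ab hab m p' k' hk') h1 (fun _ _ _ _ _ _ _ _ => rfl) ?_
      intro cd hcd q j q' j' hq hq'
      exact h3 ab hab cd hcd p k p' k' q j q' j' hk hk' hq hq'
    · -- a new point
      let PP : Set (P × P) := {x | ∃ ab ∈ Γ, ∃ j j', At m ab.1 x.1 j ∧ At m ab.2 x.2 j'}
      have hPPfin : PP.Finite := by
        have h4 : ∀ ab ∈ Γ, {x : P × P | ∃ j j', At m ab.1 x.1 j ∧ At m ab.2 x.2 j'}.Finite := by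
          intro ab _
          refine Set.Subsingleton.finite ?_
          rintro x ⟨j, j', hj, hj'⟩ y ⟨k, k', hk, hk'⟩
          exact Prod.ext (hj.inj hk).2.1 (hj'.inj hk').2.1
        refine (hf.biUnion h4).subset ?_
        rintro x ⟨ab, hab, hh⟩
        exact Set.mem_biUnion hab hh
      obtain ⟨σ, z, hσ, hzQ, hz⟩ := new_point hQ PP hPPfin
        (by
          rintro x ⟨ab, hab, j, j', hj, hj'⟩
          exact hov ab hab m x.2 j' hj') s h1
        (by
          rintro x ⟨ab, hab, j, j', hj, hj'⟩ y ⟨cd, hcd, k, k', hk, hk'⟩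
          exact h3 ab hab cd hcd x.1 j x.2 j' y.1 k y.2 k' hj hj' hk hk') p
        (by
          rintro x ⟨ab, hab, j, j', hj, hj'⟩ he
          exact hpt ⟨ab, hab, j, he ▸ hj⟩)
      refine key z (fun x x' => if x = p then σ else s x x') hzQ ?_ ?_ ?_
      · intro x x'
        show (if x = p then σ else s x x') = 0 ∨ (if x = p then σ else s x x') = 1
        split_ifs
        · exact hσ
        · exact h1 x x'
      · intro cd hcd q j q' j' hq hq'
        have : q ≠ p := fun he => hpt ⟨cd, hcd, j, he ▸ hq⟩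
        show (if q = p then σ else s q q') = s q q'
        rw [if_neg this]
      · intro cd hcd q j q' j' hq hq'
        have hqp : q ≠ p := fun he => hpt ⟨cd, hcd, j, he ▸ hq⟩
        obtain ⟨g1, g2⟩ := hz (q, q') ⟨cd, hcd, j, j', hq, hq'⟩
        refine ⟨⟨fun he => absurd he.symm hqp, fun he => absurd he g1⟩, ?_⟩
        show rho z q' = rho p q + (if q = p then σ else s q q') - (if p = p then σ else s p z)
        rw [if_neg hqp, if_pos rfl]
        exact g2

end Pool.Agent.HGC
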