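import Pool.Agent.Helper84_HGC.Lower

/-!
# The cover of an interpretable poset is interpretable
-/

set_option autoImplicit false

open FirstOrder FirstOrder.Language

namespace Pool.Agent.HGC

section closure
variable {L : FirstOrder.Language.{0, 0}} {M : Type} [L.Structure M] {α β : Type}

theorem defin_eq (a b : α) : Defin L {v : α → M | v a = v b} := by
  unfold Defin
  rw [Set.definable_iff_exists_formula_sum]
  refine ⟨(Term.var (Sum.inr a)).equal (Term.var (Sum.inr b)), ?_⟩
  ext v
  rw [Set.mem_setOf_eq, Set.mem_setOf_eq, Formula.realize_equal]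
  rfl

theorem defin_const (a : α) (m : M) : Defin L {v : α → M | v a = m} := by
  unfold Defin
  rw [Set.definable_iff_exists_formula_sum]
  refine ⟨(Term.var (Sum.inr a)).equal (Term.var (Sum.inl ⟨m, Set.mem_univ _⟩)), ?_⟩
  ext v
  rw [Set.mem_setOf_eq, Set.mem_setOf_eq, Formula.realize_equal]
  rfl

theorem defin_and {p q : (α → M) → Prop} (hp : Defin L {v | p v}) (hq : Defin L {v | q v}) :
    Defin L {v | p v ∧ q v} := Set.Definable.inter hp hq

theorem defin_or {p q : (α → M) → Prop} (hp : Defin L {v | p v}) (hq : Defin L {v | q v}) :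
    Defin L {v | p v ∨ q v} := Set.Definable.union hp hq

theorem defin_not {p : (α → M) → Prop} (hp : Defin L {v | p v}) :
    Defin L {v | ¬ p v} := Set.Definable.compl hp

theorem defin_prop (p : Prop) : Defin L {_v : α → M | p} := by
  by_cases h : p
  · have : {_v : α → M | p} = Set.univ := by ext; simp [h]
    rw [this]
    exact Set.definable_univ
  · have : {_v : α → M | p} = ∅ := by ext; simp [h]
    rw [this]
    exact Set.definable_empty

theorem defin_all {ι : Type} [Finite ι] {p : ι → (α → M) → Prop} (hp : ∀ i, Defin L {v | p i v}) :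
    Defin L {v | ∀ i, p i v} := by
  have h := Set.definable_iInter_of_finite hp
  have e : (⋂ i, {v | p i v}) = {v | ∀ i, p i v} := by ext; simp
  rw [e] at h
  exact h

theorem defin_ex {ι : Type} [Finite ι] {p : ι → (α → M) → Prop} (hp : ∀ i, Defin L {v | p i v}) :
    Defin L {v | ∃ i, p i v} := by
  have h := Set.definable_iUnion_of_finite hp
  have e : (⋃ i, {v | p i v}) = {v | ∃ i, p i v} := by ext; simp
  rw [e] at h
  exact h

theorem defin_pre (g : α → β) {p : (α → M) → Prop} (hp : Defin L {v | p v}) :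
    Defin L {v : β → M | p (fun a => v (g a))} :=
  Set.Definable.preimage_comp g hp

end closure

section
variable {P : Type} [PartialOrder P] {M : Type} (c : ℕ → M)

/-- triples outside the pieces -/
def VV (c : ℕ → M) (P : Type) : Type :=
  {t : M × M × P // ¬ ∃ n i, i < n + 7 ∧ t.1 = c n ∧ t.2.1 = c i}

omit [PartialOrder P] in
theorem infinite_VV (hc : Function.Injective c) (p : P) : Infinite (VV c P) := by
  refine Infinite.of_injective (fun k : ℕ => (⟨(c 0, c (k + 7), p), ?_⟩ : VV c P)) ?_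
  · rintro ⟨n, i, h1, h2, h3⟩
    have e1 := hc h2
    have e2 := hc h3
    omega
  · intro k l h
    have h1 := congrArg (fun t : VV c P => t.1.2.1) h
    have h2 := hc h1
    omega

open Classical in
/-- the coordinate map -/
noncomputable def ff (t : M × M × P) : Cov P (VV c P) :=
  if h : ∃ n i, i < n + 7 ∧ t.1 = c n ∧ t.2.1 = c i then
    Sum.inr ⟨(h.choose, t.2.2, h.choose_spec.choose), h.choose_spec.choose_spec.1⟩
  else Sum.inl ⟨t, h⟩

omit [PartialOrder P] in
theorem ff_at (hc : Function.Injective c) {n : ℕ} {t : M × M × P} {p : P} {i : ℕ} :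
    At n (ff c t) p i ↔ i < n + 7 ∧ t.1 = c n ∧ t.2.1 = c i ∧ t.2.2 = p := by
  classical
  by_cases h : ∃ n i, i < n + 7 ∧ t.1 = c n ∧ t.2.1 = c i
  · have e : ff c t = Sum.inr ⟨(h.choose, t.2.2, h.choose_spec.choose),
        h.choose_spec.choose_spec.1⟩ := by
      unfold ff
      rw [dif_pos h]
    obtain ⟨h1, h2, h3⟩ := h.choose_spec.choose_spec
    have hat : At h.choose (ff c t) t.2.2 h.choose_spec.choose := ⟨h1, e⟩
    constructor
    · intro hh
      obtain ⟨rfl, rfl, rfl⟩ := hat.inj hh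
      exact ⟨h1, h2, h3, rfl⟩
    · rintro ⟨g1, g2, g3, rfl⟩
      have e1 : n = h.choose := hc (g2.symm.trans h2)
      have e2 : i = h.choose_spec.choose := hc (g3.symm.trans h3)
      rw [e2]
      exact e1 ▸ hat
  · have e : ff c t = Sum.inl ⟨t, h⟩ := by
      unfold ff
      rw [dif_neg h]
    rw [e]
    constructor
    · intro hh
      exact absurd hh not_at_inl
    · rintro ⟨g1, g2, g3, -⟩
      exact absurd ⟨n, i, g1, g2, g3⟩ h

omit [PartialOrder P] in
theorem ff_inj (hc : Function.Injective c) : Function.Injective (ff (P := P) c) := by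
  classical
  intro t t' he
  rcases cov_cases (ff c t) with ⟨v, hv⟩ | ⟨n, p, i, hp⟩
  · have key : ∀ t : M × M × P, ff c t = Sum.inl v → t = v.1 := by
      intro t ht
      unfold ff at ht
      split_ifs at ht with h
      exact congrArg Subtype.val (Sum.inl.inj ht)
    rw [key t hv, key t' (he ▸ hv)]
  · obtain ⟨-, h2, h3, h4⟩ := (ff_at c hc).1 hp
    obtain ⟨-, g2, g3, g4⟩ := (ff_at c hc).1 (he ▸ hp)
    exact Prod.ext (h2.trans g2.symm) (Prod.ext (h3.trans g3.symm) (h4.trans g4.symm))

omit [PartialOrder P] in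
theorem ff_surj (hc : Function.Injective c) : Function.Surjective (ff (P := P) c) := by
  classical
  intro z
  rcases z with v | ⟨⟨n, p, i⟩, h⟩
  · refine ⟨v.1, ?_⟩
    unfold ff
    rw [dif_neg v.2]
    rfl
  · refine ⟨(c n, c i, p), ?_⟩
    have h1 : At n (ff c (c n, c i, p)) p i := (ff_at c hc).2 ⟨h, rfl, rfl, rfl⟩
    exact h1.2

theorem relF_ff (hc : Function.Injective c) (n t : ℕ) (z w : M × M × P) :
    RelF n t (ff c z) (ff c w) ↔ ∃ i j : Fin (n + 7), z.1 = c n ∧ z.2.1 = c i ∧ w.1 = c n ∧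
      w.2.1 = c j ∧ (((j : ℕ) : ℤ) - ((i : ℕ) : ℤ) ≡ rho z.2.2 w.2.2 + t [ZMOD (n + 7 : ℕ)]) := by
  constructor
  · rintro ⟨p, i, q, j, hp, hq, hm⟩
    obtain ⟨h1, h2, h3, rfl⟩ := (ff_at c hc).1 hp
    obtain ⟨g1, g2, g3, rfl⟩ := (ff_at c hc).1 hq
    exact ⟨⟨i, h1⟩, ⟨j, g1⟩, h2, h3, g2, g3, hm⟩
  · rintro ⟨i, j, h2, h3, g2, g3, hm⟩
    exact ⟨_, i, _, j, (ff_at c hc).2 ⟨i.2, h2, h3, rfl⟩, (ff_at c hc).2 ⟨j.2, g2, g3, rfl⟩, hm⟩

end

theorem generic_infinite {P : Type} [PartialOrder P] (hP : Generic P) : Infinite P := by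
  classical
  by_contra hfin
  have hfin' : Finite P := not_infinite_iff_finite.1 hfin
  have : Fintype P := Fintype.ofFinite P
  obtain ⟨z, -, -, -, hz⟩ := hP ∅ ∅ Finset.univ (Set.subset_univ _) (Set.subset_univ _)
    (Set.subset_univ _) (by simp) (by simp) (by simp)
  exact (hz z (Finset.mem_univ z)).1 le_rfl

/-- the cover is interpretable -/
theorem interp (L : FirstOrder.Language.{0, 0}) (M : Type) [L.Structure M] (P : Type)
    [PartialOrder P] (hP : Generic P) (h : InterpretsPoset L M P) :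
    ∃ (V : Type) (_ : Infinite V), Interpretable L M LC (Cov P V) := by
  classical
  obtain ⟨κ, hκ, D, f, hD, hf, hle⟩ := h
  have hPi := generic_infinite hP
  have hMi : Infinite M := by
    by_contra hfin
    have h1 : Finite M := not_infinite_iff_finite.1 hfin
    have h2 : (Set.univ : Set P).Finite := by
      rw [← hf]
      exact (Set.toFinite D).image f
    exact Set.infinite_univ h2
  obtain ⟨p₀⟩ : Nonempty P := inferInstance
  obtain ⟨c, hc⟩ : ∃ c : ℕ → M, Function.Injective c :=
    ⟨_, (Infinite.natEmbedding M).injective⟩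
  refine ⟨VV c P, infinite_VV c hc p₀, Fin 2 ⊕ κ, inferInstance,
    {z | (fun k => z (Sum.inr k)) ∈ D},
    fun z => ff c (z (Sum.inl 0), z (Sum.inl 1), f (fun k => z (Sum.inr k))), ?_, ?_, ?_, ?_, ?_⟩
  · exact defin_pre (Sum.inr : κ → Fin 2 ⊕ κ) hD
  · ext z
    simp only [Set.mem_univ, iff_true]
    obtain ⟨⟨a, b, p⟩, rfl⟩ := ff_surj c hc z
    obtain ⟨x, hx, rfl⟩ : p ∈ f '' D := by rw [hf]; exact Set.mem_univ _
    exact ⟨Sum.elim ![a, b] x, hx, rfl⟩
  · -- equality
    have e : {v : Fin 2 × (Fin 2 ⊕ κ) → M |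
        (∀ i, (fun k => v (i, k)) ∈ {z : Fin 2 ⊕ κ → M | (fun k => z (Sum.inr k)) ∈ D}) ∧
        ff c (v (0, Sum.inl 0), v (0, Sum.inl 1), f (fun k => v (0, Sum.inr k))) =
        ff c (v (1, Sum.inl 0), v (1, Sum.inl 1), f (fun k => v (1, Sum.inr k)))} =
        {v | ((((∀ i : Fin 2, (fun k => v (i, Sum.inr k)) ∈ D) ∧
          f (fun k => v (0, Sum.inr k)) ≤ f (fun k => v (1, Sum.inr k))) ∧
          ((∀ i : Fin 2, (fun k => v (Equiv.swap 0 1 i, Sum.inr k)) ∈ D) ∧
          f (fun k => v (Equiv.swap 0 1 0, Sum.inr k)) ≤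
            f (fun k => v (Equiv.swap 0 1 1, Sum.inr k))))) ∧
          (v (0, Sum.inl 0) = v (1, Sum.inl 0) ∧ v (0, Sum.inl 1) = v (1, Sum.inl 1))} := by
      ext v
      simp only [Set.mem_setOf_eq, (ff_inj c hc).eq_iff, Prod.mk.injEq, Equiv.swap_apply_left,
        Equiv.swap_apply_right]
      constructor
      · rintro ⟨h1, h2, h3, h4⟩
        exact ⟨⟨⟨h1, h4.le⟩, fun i => h1 _, h4.ge⟩, h2, h3⟩
      · rintro ⟨⟨⟨h1, h2⟩, -, h3⟩, h4, h5⟩
        exact ⟨h1, h4, h5, le_antisymm h2 h3⟩
    rw [e]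
    refine defin_and (defin_and ?_ ?_) (defin_and (defin_eq _ _) (defin_eq _ _))
    · exact defin_pre (fun ik : Fin 2 × κ => ((ik.1, Sum.inr ik.2) : Fin 2 × (Fin 2 ⊕ κ))) hle
    · exact defin_pre (fun ik : Fin 2 × κ =>
        ((Equiv.swap 0 1 ik.1, Sum.inr ik.2) : Fin 2 × (Fin 2 ⊕ κ))) hle
  · -- relations
    intro n R
    cases R with
    | F n t =>
      set A : (Fin 2 × (Fin 2 ⊕ κ) → M) → Prop := fun v =>
        (∀ i : Fin 2, (fun k => v (i, Sum.inr k)) ∈ D) ∧
          f (fun k => v (0, Sum.inr k)) ≤ f (fun k => v (1, Sum.inr k)) with hA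
      set B : (Fin 2 × (Fin 2 ⊕ κ) → M) → Prop := fun v =>
        (∀ i : Fin 2, (fun k => v (Equiv.swap 0 1 i, Sum.inr k)) ∈ D) ∧
          f (fun k => v (Equiv.swap 0 1 0, Sum.inr k)) ≤
            f (fun k => v (Equiv.swap 0 1 1, Sum.inr k)) with hB
      have dA : Defin L {v | A v} :=
        defin_pre (fun ik : Fin 2 × κ => ((ik.1, Sum.inr ik.2) : Fin 2 × (Fin 2 ⊕ κ))) hle
      have dB : Defin L {v | B v} :=
        defin_pre (fun ik : Fin 2 × κ =>
          ((Equiv.swap 0 1 ik.1, Sum.inr ik.2) : Fin 2 × (Fin 2 ⊕ κ))) hle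
      have dD : Defin L {v : Fin 2 × (Fin 2 ⊕ κ) → M |
          ∀ i : Fin 2, (fun k => v (i, Sum.inr k)) ∈ D} :=
        defin_all fun i => defin_pre (fun k : κ => ((i, Sum.inr k) : Fin 2 × (Fin 2 ⊕ κ))) hD
      have e : {v : Fin 2 × (Fin 2 ⊕ κ) → M |
          (∀ i, (fun k => v (i, k)) ∈ {z : Fin 2 ⊕ κ → M | (fun k => z (Sum.inr k)) ∈ D}) ∧
          Structure.RelMap (L := LC) (CRel.F n t : LC.Relations 2) (fun i =>
            ff c (v (i, Sum.inl 0), v (i, Sum.inl 1), f (fun k => v (i, Sum.inr k))))} =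
          {v | (∀ i : Fin 2, (fun k => v (i, Sum.inr k)) ∈ D) ∧ ∃ i j : Fin (n + 7),
            (v (0, Sum.inl 0) = c n ∧ v (0, Sum.inl 1) = c i ∧ v (1, Sum.inl 0) = c n ∧
              v (1, Sum.inl 1) = c j) ∧
            (((A v ∧ ¬ B v) ∧
              (((j : ℕ) : ℤ) - ((i : ℕ) : ℤ) ≡ 1 + t [ZMOD (n + 7 : ℕ)])) ∨
            ((B v ∧ ¬ A v) ∧
              (((j : ℕ) : ℤ) - ((i : ℕ) : ℤ) ≡ -1 + t [ZMOD (n + 7 : ℕ)])) ∨
            (((A v ∧ B v) ∨ (¬ A v ∧ ¬ B v)) ∧
              (((j : ℕ) : ℤ) - ((i : ℕ) : ℤ) ≡ 0 + t [ZMOD (n + 7 : ℕ)])))} := by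
        ext v
        have hv : Structure.RelMap (L := LC) (CRel.F n t : LC.Relations 2) (fun i =>
            ff c (v (i, Sum.inl 0), v (i, Sum.inl 1), f (fun k => v (i, Sum.inr k)))) ↔
            RelF n t (ff c (v (0, Sum.inl 0), v (0, Sum.inl 1), f (fun k => v (0, Sum.inr k))))
              (ff c (v (1, Sum.inl 0), v (1, Sum.inl 1), f (fun k => v (1, Sum.inr k)))) := Iff.rfl
        rw [Set.mem_setOf_eq, Set.mem_setOf_eq, hv, relF_ff c hc]
        refine and_congr_right fun hDv => exists_congr fun i => exists_congr fun j => ?_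
        have hDv : ∀ i : Fin 2, (fun k => v (i, Sum.inr k)) ∈ D := hDv
        have hAv : A v ↔ f (fun k => v (0, Sum.inr k)) ≤ f (fun k => v (1, Sum.inr k)) :=
          ⟨fun h => h.2, fun h => ⟨hDv, h⟩⟩
        have hBv : B v ↔ f (fun k => v (1, Sum.inr k)) ≤ f (fun k => v (0, Sum.inr k)) := by
          constructor
          · intro h
            have := h.2
            rwa [Equiv.swap_apply_left, Equiv.swap_apply_right] at this
          · intro h
            refine ⟨fun i => hDv _, ?_⟩
            rwa [Equiv.swap_apply_left, Equiv.swap_apply_right]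
        rw [hAv, hBv]
        simp only
        set a := f (fun k => v (0, Sum.inr k))
        set b := f (fun k => v (1, Sum.inr k))
        rcases rho_vals a b with h | h | h
        · have h1 := rho_one.1 h
          rw [h]
          have h2 : ¬ b ≤ a := h1.not_ge
          simp [h1.le, h2, and_assoc]
        · have h1 := rho_neg.1 h
          rw [h]
          have h2 : ¬ a ≤ b := h1.not_ge
          simp [h1.le, h2, and_assoc]
        · have h1 : ¬ a < b := fun hh => by rw [rho_one.2 hh] at h; exact one_ne_zero h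
          have h2 : ¬ b < a := fun hh => by
            rw [rho_neg.2 hh] at h
            norm_num at h
          have h3 : a ≤ b ↔ b ≤ a := by
            constructor
            · intro hh
              by_contra h4
              exact h1 (lt_of_le_not_ge hh h4)
            · intro hh
              by_contra h4
              exact h2 (lt_of_le_not_ge hh h4)
          rw [h]
          by_cases h4 : a ≤ b
          · have h5 := h3.1 h4
            simp [h4, h5, and_assoc]
          · have h5 : ¬ b ≤ a := fun h => h4 (h3.2 h)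
            simp [h4, h5, and_assoc]
      rw [e]
      refine defin_and dD (defin_ex fun i => defin_ex fun j => defin_and
        (defin_and (defin_const _ _) (defin_and (defin_const _ _)
          (defin_and (defin_const _ _) (defin_const _ _)))) (defin_or (defin_and
          (defin_and dA (defin_not dB)) (defin_prop _)) (defin_or (defin_and
          (defin_and dB (defin_not dA)) (defin_prop _)) (defin_and
          (defin_or (defin_and dA dB) (defin_and (defin_not dA) (defin_not dB))) (defin_prop _)))))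
  · intro n F
    exact F.elim

/-- main theorem of the file -/
theorem not_hered {L : FirstOrder.Language.{0, 0}} (T : L.Theory) (M : Type) [L.Structure M]
    (hM : M ⊨ T) (P : Type) [PartialOrder P] (hP : Generic P) (h : InterpretsPoset L M P) :
    ¬ HerGCompact T := by
  intro hT
  obtain ⟨V, hV, hI⟩ := interp L M P hP h
  exact not_gcompact (V := V) hP (hT M inferInstance hM LC (Cov P V) inferInstance hI)

end Pool.Agent.HGC
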