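import Pool.Agent.Helper84_HGC.Steps

/-!
# A Lascar step changes the level by at most two; the theory of the cover is not G-compact
-/

set_option autoImplicit false

open FirstOrder FirstOrder.Language

namespace Pool.Agent.HGC

section formulas

variable {X : Type} [LC.Structure X]

/-- the relation `F n t` of any structure -/
def FX (X : Type) [LC.Structure X] (n t : ℕ) (u v : X) : Prop :=
  Structure.RelMap (L := LC) (CRel.F n t : LC.Relations 2) ![u, v]

/-- the atomic formula -/
def fF {α : Type} (n t : ℕ) (i j : α) : LC.Formula α :=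
  Relations.formula₂ (CRel.F n t : LC.Relations 2) (Term.var i) (Term.var j)

theorem fF_realize {α : Type} (n t : ℕ) (i j : α) (v : α → X) :
    (fF n t i j).Realize v ↔ FX X n t (v i) (v j) := by
  unfold fF FX
  rw [Formula.realize_rel₂]
  rfl

/-- two elements are in the same relation to a third one -/
def Rd (n : ℕ) (u v : X) : Prop := ∃ s : X, ∃ t : Fin (n + 7), FX X n t u s ∧ FX X n t v s

/-- the formula for `Rd` -/
noncomputable def fR (n : ℕ) : LC.Formula (Fin 2) :=
  Formula.iExs Unit (Formula.iSup fun t : Fin (n + 7) =>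
    (fF n t (Sum.inl 0) (Sum.inr ()) ⊓ fF n t (Sum.inl 1) (Sum.inr ()) : LC.Formula (Fin 2 ⊕ Unit)))

theorem fR_realize (n : ℕ) (v : Fin 2 → X) : (fR n).Realize v ↔ Rd n (v 0) (v 1) := by
  unfold fR
  rw [Formula.realize_iExs]
  constructor
  · rintro ⟨i, hi⟩
    rw [Formula.realize_iSup] at hi
    obtain ⟨t, ht⟩ := hi
    rw [Formula.realize_inf, fF_realize, fF_realize] at ht
    exact ⟨i (), t, ht⟩
  · rintro ⟨s, t, ht⟩
    refine ⟨fun _ => s, ?_⟩
    rw [Formula.realize_iSup]
    refine ⟨t, ?_⟩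
    rw [Formula.realize_inf, fF_realize, fF_realize]
    exact ht

/-- chains -/
def Ch (n : ℕ) : ℕ → X → X → Prop
  | 0 => fun u v => u = v
  | m + 1 => fun u v => ∃ z, Ch n m u z ∧ Rd n z v

/-- the formula for chains -/
noncomputable def fC (n : ℕ) : ℕ → LC.Formula (Fin 2)
  | 0 => (Term.var 0).equal (Term.var 1)
  | m + 1 => Formula.iExs Unit
      (((fC n m).relabel (![Sum.inl 0, Sum.inr ()] : Fin 2 → Fin 2 ⊕ Unit)) ⊓
        ((fR n).relabel (![Sum.inr (), Sum.inl 1] : Fin 2 → Fin 2 ⊕ Unit)))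

theorem fC_realize (n : ℕ) : ∀ (m : ℕ) (v : Fin 2 → X), (fC n m).Realize v ↔ Ch n m (v 0) (v 1)
  | 0, v => by
    unfold fC
    rw [Formula.realize_equal]
    rfl
  | m + 1, v => by
    unfold fC
    rw [Formula.realize_iExs]
    constructor
    · rintro ⟨i, hi⟩
      rw [Formula.realize_inf, Formula.realize_relabel, Formula.realize_relabel, fC_realize n m,
        fR_realize] at hi
      exact ⟨i (), hi⟩
    · rintro ⟨z, hz⟩
      refine ⟨fun _ => z, ?_⟩
      rw [Formula.realize_inf, Formula.realize_relabel, Formula.realize_relabel, fC_realize n m,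
        fR_realize]
      exact hz

/-- every element of the piece is in one of the relations to every other one -/
noncomputable def fT (n : ℕ) : LC.Formula (Fin 2) :=
  ((fF n 0 0 0 ⊓ fF n 0 1 1 : LC.Formula (Fin 2))).imp
    (Formula.iSup fun t : Fin (n + 7) => (fF n t 0 1 : LC.Formula (Fin 2)))

theorem fT_realize (n : ℕ) (v : Fin 2 → X) : (fT n).Realize v ↔
    (FX X n 0 (v 0) (v 0) ∧ FX X n 0 (v 1) (v 1) → ∃ t : Fin (n + 7), FX X n t (v 0) (v 1)) := by
  unfold fT
  rw [Formula.realize_imp, Formula.realize_inf, Formula.realize_iSup, fF_realize, fF_realize]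
  simp only [fF_realize]

end formulas

section
variable {P V : Type} [PartialOrder P]

theorem FX_cov (n t : ℕ) (u v : Cov P V) : FX (Cov P V) n t u v ↔ RelF n t u v := Iff.rfl

theorem FX_self {n : ℕ} {z : Cov P V} {p : P} {i : ℕ} (h : At n z p i) :
    FX (Cov P V) n 0 z z := by
  refine ⟨p, i, p, i, h, h, ?_⟩
  rw [rho_self]
  simp

theorem cov_fT (n : ℕ) (u v : Cov P V) (hu : FX (Cov P V) n 0 u u) (hv : FX (Cov P V) n 0 v v) :
    ∃ t : Fin (n + 7), FX (Cov P V) n t u v := by
  obtain ⟨p, i, -, -, hp, -, -⟩ := hu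
  obtain ⟨q, j, -, -, hq, -, -⟩ := hv
  obtain ⟨t, ht, hm⟩ := exists_level n ((j : ℤ) - i - rho p q)
  refine ⟨⟨t, ht⟩, p, i, q, j, hp, hq, ?_⟩
  have h1 := (Int.ModEq.add_left (rho p q) hm).symm
  have e1 : rho p q + ((j : ℤ) - i - rho p q) = j - i := by ring
  rw [e1] at h1
  exact h1

/-- levels of elements joined by a chain -/
theorem ch_level {n : ℕ} : ∀ (m : ℕ) {u v : Cov P V} {p q : P} {i j : ℕ}, At n u p i → At n v q j →
    Ch n m u v → ∃ d : ℤ, |d| ≤ 2 * m ∧ ((j : ℤ) ≡ i + d [ZMOD (n + 7 : ℕ)])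
  | 0, u, v, p, q, i, j, hu, hv, h => by
    have h : u = v := h
    subst h
    obtain ⟨-, -, rfl⟩ := hu.inj hv
    exact ⟨0, by simp, by simp⟩
  | m + 1, u, v, p, q, i, j, hu, hv, h => by
    obtain ⟨z, hz, s, t, hzs, hvs⟩ := h
    rw [FX_cov] at hzs hvs
    obtain ⟨r, k, s', l, hzr, hs, h1⟩ := hzs
    obtain ⟨q', j', s'', l', hvq, hs', h2⟩ := hvs
    obtain ⟨-, rfl, rfl⟩ := hv.inj hvq
    obtain ⟨-, rfl, rfl⟩ := hs.inj hs'
    obtain ⟨d, hd, h3⟩ := ch_level m hu hzr hz
    refine ⟨d + (rho r s' - rho q s'), ?_, ?_⟩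
    · have e1 : |rho r s' - rho q s'| ≤ 2 := by
        rcases rho_vals r s' with e | e | e <;> rcases rho_vals q s' with e' | e' | e' <;>
          rw [e, e'] <;> norm_num
      calc |d + (rho r s' - rho q s')| ≤ |d| + |rho r s' - rho q s'| := abs_add_le _ _
        _ ≤ 2 * m + 2 := add_le_add hd e1
        _ = 2 * ((m + 1 : ℕ) : ℤ) := by push_cast; ring
    · -- `j ≡ l - rho q s' - t ≡ k + rho r s' - rho q s'`
      have h4 := h1.sub h2
      have e1 : (l : ℤ) - k - (l - j) = j - k := by ring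
      have e2 : rho r s' + ((t : ℕ) : ℤ) - (rho q s' + ((t : ℕ) : ℤ)) = rho r s' - rho q s' := by ring
      rw [e1, e2] at h4
      have h5 := (Int.ModEq.add_left (k : ℤ) h4)
      have e3 : (k : ℤ) + (j - k) = j := by ring
      rw [e3] at h5
      have h6 := Int.ModEq.add_right (rho r s' - rho q s') h3
      rw [add_assoc] at h6
      exact h5.trans h6

/-- lower bound for the Lascar distance -/
theorem dist_ge {N m : ℕ} {x : P} {k : ℕ} (h : DistLE (L := LC) m
      ((ElementaryEmbedding.refl LC (Cov P V)) ∘ tup V N x x 0) (tup V N x x k))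
    (hk : 2 * m < k) (hN : k + 2 * m < N + 7) : False := by
  obtain ⟨D, iD, e, c, S, h0, hm, hs⟩ := h
  -- all elements lie in the piece
  have hU : ∀ i ≤ m, FX D N 0 (c i N) (c i N) := by
    intro i
    induction i with
    | zero =>
      intro _
      have h1 : c 0 N = e (tup V N x x 0 N) := by rw [h0]; rfl
      rw [h1]
      have h2 := e.map_formula (fF N 0 () ()) (fun _ : Unit => tup V N x x 0 N)
      rw [fF_realize, fF_realize] at h2
      refine h2.2 ?_
      rw [tup_self]
      exact FX_self (at_pt _ _ _)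
    | succ i ih =>
      intro hi
      have h1 := hs i (by omega) (fF N 0 (Sum.inl N) (Sum.inl N))
      rw [fF_realize, fF_realize] at h1
      exact h1.1 (ih (by omega))
  -- the sentence on the relations
  have hT : ∀ u v : D, FX D N 0 u u → FX D N 0 v v → ∃ t : Fin (N + 7), FX D N t u v := by
    have h1 : (Cov P V) ⊨ (Formula.iAlls (Fin 2) ((fT N).relabel (Sum.inr : Fin 2 → Empty ⊕ Fin 2)) :
        LC.Sentence) := by
      rw [Sentence.Realize, Formula.realize_iAlls]
      intro v
      rw [Formula.realize_relabel, fT_realize]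
      rintro ⟨h2, h3⟩
      exact cov_fT N _ _ h2 h3
    rw [e.map_sentence, Sentence.Realize, Formula.realize_iAlls] at h1
    intro u v hu hv
    have h2 := h1 ![u, v]
    rw [Formula.realize_relabel, fT_realize] at h2
    exact h2 ⟨hu, hv⟩
  -- every submodel has elements in the piece
  have hS : ∀ i, ∃ s : S i, FX D N 0 (s : D) (s : D) := by
    intro i
    have h1 : (Cov P V) ⊨ (Formula.iExs Unit (fF N 0 (Sum.inr ()) (Sum.inr ())) : LC.Sentence) := by
      rw [Sentence.Realize, Formula.realize_iExs]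
      refine ⟨fun _ => tup V N x x 0 N, ?_⟩
      rw [fF_realize]
      show FX (Cov P V) N 0 (tup V N x x 0 N) (tup V N x x 0 N)
      rw [tup_self]
      exact FX_self (at_pt _ _ _)
    rw [e.map_sentence, ← (S i).subtype.map_sentence, Sentence.Realize, Formula.realize_iExs] at h1
    obtain ⟨s, hs'⟩ := h1
    rw [fF_realize] at hs'
    refine ⟨s (), ?_⟩
    have h2 := (S i).subtype.map_formula (fF N 0 () ()) s
    rw [fF_realize, fF_realize] at h2
    exact h2.2 hs'
  -- a step
  have hR : ∀ i < m, Rd N (c i N) (c (i + 1) N) := by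
    intro i hi
    obtain ⟨s, hs'⟩ := hS i
    obtain ⟨t, ht⟩ := hT _ _ (hU i hi.le) hs'
    have h1 := hs i hi (fF N t (Sum.inl N) (Sum.inr s))
    rw [fF_realize, fF_realize] at h1
    exact ⟨s, t, ht, h1.1 ht⟩
  have hC : ∀ i ≤ m, Ch N i (c 0 N) (c i N) := by
    intro i
    induction i with
    | zero => intro _; rfl
    | succ i ih =>
      intro hi
      exact ⟨c i N, ih (by omega), hR i (by omega)⟩
  have h1 := hC m le_rfl
  rw [h0, hm] at h1
  have h2 := e.map_formula (fC N m) (![tup V N x x 0 N, tup V N x x k N] : Fin 2 → Cov P V)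
  rw [fC_realize, fC_realize] at h2
  have h3 : Ch N m (tup V N x x 0 N) (tup V N x x k N) := h2.1 h1
  rw [tup_self, tup_self] at h3
  obtain ⟨d, hd, h4⟩ := ch_level m (at_pt N x 0) (at_pt N x k) h3
  have e1 : k % (N + 7) = k := Nat.mod_eq_of_lt (by omega)
  rw [e1, Nat.zero_mod, Nat.cast_zero, zero_add] at h4
  have h5 := h4.symm.dvd
  obtain ⟨hd1, hd2⟩ := abs_le.1 hd
  have h6 : 0 < (k : ℤ) - d := by
    have : (2 * m : ℤ) < k := by exact_mod_cast hk
    linarith
  have h7 : (k : ℤ) - d < (N + 7 : ℕ) := by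
    have : (k : ℤ) + 2 * m < (N + 7 : ℕ) := by exact_mod_cast hN
    linarith
  exact absurd (Int.le_of_dvd h6 h5) (not_le.2 h7)

/-- the theory of the cover is not G-compact -/
theorem not_gcompact (hP : Generic P) [Infinite V] :
    ¬ GCompact (LC.completeTheory (Cov P V)) := by
  intro h
  obtain ⟨x, x₁, hx, hx'⟩ := exists_incomp hP
  obtain ⟨n, hn⟩ : ∃ n : ℕ, ∀ N : ℕ, DistLE (L := LC) n
      ((ElementaryEmbedding.refl LC (Cov P V)) ∘ tup V N x x 0) (tup V N x x (2 * n + 1)) := by
    obtain ⟨n, hn⟩ := h (Cov P V) inferInstance inferInstance ℕ (fun n => pt n x 0)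
    refine ⟨n, fun N => ?_⟩
    have e1 : tup V N x x 0 = fun n => pt n x 0 := by
      funext m
      unfold tup
      split_ifs <;> rfl
    rw [e1]
    refine hn (Cov P V) inferInstance (ElementaryEmbedding.refl LC (Cov P V)) _
      ⟨2 * (2 * n + 1), ?_⟩
    rw [← e1]
    exact dist_le hP hx hx' N (2 * n + 1)
  exact dist_ge (hn (4 * n)) (by omega) (by omega)

end

end Pool.Agent.HGC
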