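import Pool.Agent.Helper84_HGC.Ext

/-!
# The back-and-forth system preserves all formulas
-/

set_option autoImplicit false

open FirstOrder FirstOrder.Language

namespace Pool.Agent.HGC

variable {P V : Type} [PartialOrder P]

theorem generic_univ (hP : Generic P) : GenericOn (Set.univ : Set P) := hP

theorem BF.forth' (hP : Generic P) [Infinite V] {Γ : Set (Cov P V × Cov P V)} (h : BF Γ)
    (hf : Γ.Finite) (a : Cov P V) : ∃ b, BF (insert (a, b) Γ) := by
  obtain ⟨b, -, hb⟩ := h.forth hf (generic_univ hP) (fun _ _ _ _ _ _ => Set.mem_univ _) a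
  exact ⟨b, hb⟩

theorem BF.back' (hP : Generic P) [Infinite V] {Γ : Set (Cov P V × Cov P V)} (h : BF Γ)
    (hf : Γ.Finite) (b : Cov P V) : ∃ a, BF (insert (a, b) Γ) := by
  obtain ⟨a, ha⟩ := BF.forth' hP h.swap (hf.image _) b
  refine ⟨a, ?_⟩
  have h1 := ha.swap
  rw [Set.image_insert_eq, ← Set.image_comp] at h1
  simpa using h1

/-- the pairs of values of two assignments -/
def prs {α : Type} (v w : α → Cov P V) : Set (Cov P V × Cov P V) := Set.range fun i => (v i, w i)

theorem term_var {α : Type} (t : LC.Term α) : ∃ i, t = Term.var i := by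
  rcases t with i | ⟨f, _⟩
  · exact ⟨i, rfl⟩
  · exact f.elim

theorem bf_real (hP : Generic P) [Infinite V] {α : Type} [Finite α] {n : ℕ}
    (φ : LC.BoundedFormula α n) : ∀ (v w : α → Cov P V) (x y : Fin n → Cov P V),
    BF (prs (Sum.elim v x) (Sum.elim w y)) → (φ.Realize v x ↔ φ.Realize w y) := by
  induction φ with
  | falsum => intro v w x y _; exact Iff.rfl
  | equal t₁ t₂ =>
    intro v w x y h
    obtain ⟨i, rfl⟩ := term_var t₁
    obtain ⟨j, rfl⟩ := term_var t₂
    exact h.eq_iff ⟨i, rfl⟩ ⟨j, rfl⟩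
  | rel R ts =>
    intro v w x y h
    cases R with
    | F k t =>
      obtain ⟨i, hi⟩ := term_var (ts 0)
      obtain ⟨j, hj⟩ := term_var (ts 1)
      have key : ∀ (v : α → Cov P V) (x), (BoundedFormula.rel (CRel.F k t : LC.Relations 2)
          ts).Realize v x ↔ RelF k t (Sum.elim v x i) (Sum.elim v x j) := by
        intro v x
        show RelF k t ((ts 0).realize (Sum.elim v x)) ((ts 1).realize (Sum.elim v x)) ↔ _
        rw [hi, hj]
        rfl
      rw [key, key]
      refine ⟨h.relF ⟨i, rfl⟩ ⟨j, rfl⟩ k t, ?_⟩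
      exact h.swap.relF (ab := (Sum.elim w y i, Sum.elim v x i))
        (cd := (Sum.elim w y j, Sum.elim v x j)) ⟨_, ⟨i, rfl⟩, rfl⟩ ⟨_, ⟨j, rfl⟩, rfl⟩ k t
  | imp f₁ f₂ ih₁ ih₂ =>
    intro v w x y h
    rw [BoundedFormula.realize_imp, BoundedFormula.realize_imp, ih₁ v w x y h, ih₂ v w x y h]
  | all f ih =>
    intro v w x y h
    have hfin : (prs (Sum.elim v x) (Sum.elim w y)).Finite := Set.finite_range _
    have hsub : ∀ a b, prs (Sum.elim v (Fin.snoc x a : Fin _ → Cov P V))
        (Sum.elim w (Fin.snoc y b : Fin _ → Cov P V)) ⊆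
        insert (a, b) (prs (Sum.elim v x) (Sum.elim w y)) := by
      rintro a b _ ⟨i | i, rfl⟩
      · exact Set.mem_insert_of_mem _ ⟨Sum.inl i, rfl⟩
      · refine Fin.lastCases ?_ (fun i => ?_) i
        · refine Or.inl ?_
          simp
        · refine Set.mem_insert_of_mem _ ⟨Sum.inr i, ?_⟩
          simp
    rw [BoundedFormula.realize_all, BoundedFormula.realize_all]
    constructor
    · intro hall b
      obtain ⟨a, ha⟩ := h.back' hP hfin b
      exact (ih v w _ _ (ha.mono (hsub a b))).1 (hall a)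
    · intro hall a
      obtain ⟨b, hb⟩ := h.forth' hP hfin a
      exact (ih v w _ _ (hb.mono (hsub a b))).2 (hall b)

/-- assignments of arbitrary (possibly infinite) sets of variables -/
theorem bf_formula (hP : Generic P) [Infinite V] {α : Type} (φ : LC.Formula α)
    (v w : α → Cov P V) (h : BF (prs v w)) : φ.Realize v ↔ φ.Realize w := by
  classical
  have h1 : ∀ v : α → Cov P V, φ.Realize v ↔
      (BoundedFormula.restrictFreeVar φ (Set.inclusion (subset_refl (↑φ.freeVarFinset : Set α)))).Realize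
        (v ∘ ((↑) : (↑φ.freeVarFinset : Set α) → α)) default := fun v =>
    (BoundedFormula.realize_restrictFreeVar' _).symm
  rw [h1 v, h1 w]
  refine bf_real hP _ _ _ _ _ (h.mono ?_)
  rintro _ ⟨i | i, rfl⟩
  · exact ⟨i.1, rfl⟩
  · exact i.elim0

/-- the part of the cover over `Q` -/
def subQ (Q : Set P) : LC.Substructure (Cov P V) where
  carrier := {z | ∀ n p i, At n z p i → p ∈ Q}
  fun_mem := fun f => f.elim

theorem mem_subQ {Q : Set P} {z : Cov P V} :
    z ∈ (subQ Q : LC.Substructure (Cov P V)) ↔ ∀ n p i, At n z p i → p ∈ Q := Iff.rfl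

/-- the diagonal is in the system -/
theorem bf_diag (Γ : Set (Cov P V × Cov P V)) (h : ∀ ab ∈ Γ, ab.1 = ab.2) : BF Γ where
  at_iff := fun ab hab n => by rw [h ab hab]
  inl_eq := fun ab hab cd hcd _ _ => by rw [h ab hab, h cd hcd]
  piece := fun n => by
    refine ⟨fun _ _ => 0, 0, fun _ _ => Or.inl rfl, ?_, ?_⟩
    · intro ab hab p i p' i' hp hp'
      rw [h ab hab] at hp
      obtain ⟨-, -, rfl⟩ := hp.inj hp'
      simp
    · intro ab hab cd hcd p i p' i' q j q' j' hp hp' hq hq'
      rw [h ab hab] at hp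
      rw [h cd hcd] at hq
      obtain ⟨-, rfl, -⟩ := hp.inj hp'
      obtain ⟨-, rfl, -⟩ := hq.inj hq'
      exact ⟨Iff.rfl, by ring⟩

/-- the part of the cover over `Q` is an elementary substructure, if `Q` is generic -/
noncomputable def elQ (hP : Generic P) [Infinite V] (Q : Set P) (hQ : GenericOn Q) :
    LC.ElementarySubstructure (Cov P V) :=
  Substructure.toElementarySubstructure (subQ Q) (by
    intro n φ x a ha
    set Γ : Set (Cov P V × Cov P V) := Set.range fun i => ((x i : Cov P V), (x i : Cov P V))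
      with hΓ
    have h1 : BF Γ := bf_diag Γ (by rintro _ ⟨i, rfl⟩; rfl)
    obtain ⟨b, hb, hb'⟩ := h1.forth (Set.finite_range _) hQ
      (by
        rintro _ ⟨i, rfl⟩
        exact (x i).2) a
    refine ⟨⟨b, hb⟩, ?_⟩
    refine (bf_real hP φ _ _ _ _ (hb'.mono ?_)).1 ha
    rintro _ ⟨i | i, rfl⟩
    · exact i.elim
    · refine Fin.lastCases ?_ (fun i => ?_) i
      · refine Or.inl ?_
        simp
      · refine Set.mem_insert_of_mem _ ⟨i, ?_⟩
        simp)

theorem mem_elQ (hP : Generic P) [Infinite V] (Q : Set P) (hQ : GenericOn Q) {z : Cov P V} :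
    z ∈ elQ hP Q hQ ↔ ∀ n p i, At n z p i → p ∈ Q := Iff.rfl

end Pool.Agent.HGC
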