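import Pool.Agent.Helper84_HGC.Real

/-!
# Two Lascar steps turn the cover
-/

set_option autoImplicit false

open FirstOrder FirstOrder.Language

namespace Pool.Agent.HGC

variable {P V : Type} [PartialOrder P]

/-- elements below `x₁`, incomparable to `x` -/
def P1 (x x₁ : P) : Set P := {p | p < x₁ ∧ ¬ p ≤ x ∧ ¬ x ≤ p}

/-- elements incomparable to `x` and `x₁` -/
def P2 (x x₁ : P) : Set P := {p | (¬ p ≤ x ∧ ¬ x ≤ p) ∧ ¬ p ≤ x₁ ∧ ¬ x₁ ≤ p}

theorem gen1 (hP : Generic P) {x x₁ : P} (h : ¬ x ≤ x₁) (h' : ¬ x₁ ≤ x) : GenericOn (P1 x x₁) := by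
  classical
  intro A B C hA hB hC hAB hAC hBC
  obtain ⟨z, -, h1, h2, h3⟩ := hP A (insert x₁ B) (insert x C) (Set.subset_univ _)
    (Set.subset_univ _) (Set.subset_univ _)
    (by
      intro a ha b hb
      rcases Finset.mem_insert.1 hb with rfl | hb
      · exact (hA ha).1
      · exact hAB a ha b hb)
    (by
      intro a ha c hc
      rcases Finset.mem_insert.1 hc with rfl | hc
      · exact (hA ha).2.2
      · exact hAC a ha c hc)
    (by
      intro b hb c hc
      rcases Finset.mem_insert.1 hb with rfl | hb <;> rcases Finset.mem_insert.1 hc with rfl | hc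
      · exact h'
      · exact fun hle => absurd ((hC hc).1.trans_le hle) (lt_irrefl _)
      · exact (hB hb).2.1
      · exact hBC b hb c hc)
  refine ⟨z, ⟨h2 _ (Finset.mem_insert_self _ _), h3 _ (Finset.mem_insert_self _ _)⟩, h1,
    fun b hb => h2 b (Finset.mem_insert_of_mem hb), fun c hc => h3 c (Finset.mem_insert_of_mem hc)⟩

theorem gen2 (hP : Generic P) {x x₁ : P} : GenericOn (P2 x x₁) := by
  classical
  intro A B C hA hB hC hAB hAC hBC
  obtain ⟨z, -, h1, h2, h3⟩ := hP A B (insert x (insert x₁ C)) (Set.subset_univ _)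
    (Set.subset_univ _) (Set.subset_univ _) hAB
    (by
      intro a ha c hc
      rcases Finset.mem_insert.1 hc with rfl | hc
      · exact (hA ha).1.2
      rcases Finset.mem_insert.1 hc with rfl | hc
      · exact (hA ha).2.2
      · exact hAC a ha c hc)
    (by
      intro b hb c hc
      rcases Finset.mem_insert.1 hc with rfl | hc
      · exact (hB hb).1.1
      rcases Finset.mem_insert.1 hc with rfl | hc
      · exact (hB hb).2.1
      · exact hBC b hb c hc)
  refine ⟨z, ⟨h3 _ (Finset.mem_insert_self _ _),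
    h3 _ (Finset.mem_insert_of_mem (Finset.mem_insert_self _ _))⟩, h1, h2, fun c hc => h3 c ?_⟩
  exact Finset.mem_insert_of_mem (Finset.mem_insert_of_mem hc)

/-- the point `p` at the level `i` (modulo `n + 7`) of the piece `n` -/
def pt (n : ℕ) (p : P) (i : ℕ) : Cov P V :=
  Sum.inr ⟨(n, p, i % (n + 7)), Nat.mod_lt _ (by omega)⟩

omit [PartialOrder P] in
theorem at_pt (n : ℕ) (p : P) (i : ℕ) : At n (pt n p i : Cov P V) p (i % (n + 7)) :=
  ⟨Nat.mod_lt _ (by omega), rfl⟩

/-- the tuple: base points in all pieces, in the piece `N` the point `p` at the level `i` -/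
def tup (V : Type) (N : ℕ) (x p : P) (i : ℕ) : ℕ → Cov P V :=
  fun n => if n = N then pt n p i else pt n x 0

omit [PartialOrder P] in
theorem tup_self (N : ℕ) (x p : P) (i : ℕ) : tup V N x p i N = pt N p i := by simp [tup]

omit [PartialOrder P] in
theorem tup_ne {N n : ℕ} (h : n ≠ N) (x p : P) (i : ℕ) : tup V N x p i n = pt n x 0 := by
  simp [tup, h]

omit [PartialOrder P] in
theorem at_tup {N m n : ℕ} {x p q : P} {i j : ℕ} (h : At n (tup V N x p i m) q j) :
    m = n ∧ (n = N → q = p ∧ j = i % (N + 7)) ∧ (n ≠ N → q = x ∧ j = 0) := by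
  by_cases hm : m = N
  · subst hm
    rw [tup_self] at h
    obtain ⟨rfl, rfl, rfl⟩ := (at_pt _ _ _).inj h
    exact ⟨rfl, fun _ => ⟨rfl, rfl⟩, fun h => absurd rfl h⟩
  · rw [tup_ne hm] at h
    obtain ⟨rfl, rfl, rfl⟩ := (at_pt _ _ _).inj h
    exact ⟨rfl, fun h => absurd h hm, fun _ => ⟨rfl, Nat.zero_mod _⟩⟩

/-- one step -/
theorem bf_step (N : ℕ) (x y y' : P) (t t' : ℕ) (S : Set (Cov P V)) (σ : ℤ) (hσ : σ = 0 ∨ σ = 1)
    (hlev : (t' : ℤ) ≡ t + σ [ZMOD (N + 7 : ℕ)])
    (hS : ∀ z ∈ S, ∀ p i, At N z p i → p ≠ y ∧ p ≠ y' ∧ rho y' p = rho y p - σ) :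
    BF (prs (Sum.elim (tup V N x y t) (fun s : S => (s : Cov P V)))
      (Sum.elim (tup V N x y' t') (fun s : S => (s : Cov P V)))) where
  at_iff := by
    rintro _ ⟨m | s, rfl⟩ n
    · by_cases hm : m = N
      · subst hm
        simp only [Sum.elim_inl, tup_self]
        by_cases hn : n = m
        · subst hn
          exact ⟨fun _ => ⟨_, _, at_pt _ _ _⟩, fun _ => ⟨_, _, at_pt _ _ _⟩⟩
        · constructor
          · rintro ⟨p, i, h⟩
            exact absurd (h.inj (at_pt _ _ _)).1 hn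
          · rintro ⟨p, i, h⟩
            exact absurd (h.inj (at_pt _ _ _)).1 hn
      · simp only [Sum.elim_inl, tup_ne hm]
    · exact Iff.rfl
  inl_eq := by
    rintro _ ⟨m | s, rfl⟩ _ ⟨m' | s', rfl⟩ h1 h2
    · refine absurd ?_ (h1 m (if m = N then y else x) (if m = N then t % (m + 7) else 0 % (m + 7)))
      simp only [Sum.elim_inl, tup]
      split_ifs <;> exact at_pt _ _ _
    · refine absurd ?_ (h1 m (if m = N then y else x) (if m = N then t % (m + 7) else 0 % (m + 7)))
      simp only [Sum.elim_inl, tup]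
      split_ifs <;> exact at_pt _ _ _
    · refine absurd ?_ (h2 m' (if m' = N then y else x)
        (if m' = N then t % (m' + 7) else 0 % (m' + 7)))
      simp only [Sum.elim_inl, tup]
      split_ifs <;> exact at_pt _ _ _
    · exact Iff.rfl
  piece := by
    classical
    intro n
    by_cases hn : n = N
    · subst hn
      refine ⟨fun p _ => if p = y then σ else 0, 0, ?_, ?_, ?_⟩
      · intro p p'
        show (if p = y then σ else 0) = 0 ∨ (if p = y then σ else 0) = 1
        split_ifs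
        · exact hσ
        · exact Or.inl rfl
      · rintro _ ⟨m | s, rfl⟩ p i p' i' hp hp'
        · obtain ⟨-, h2, -⟩ := at_tup hp
          obtain ⟨-, h3, -⟩ := at_tup hp'
          obtain ⟨rfl, rfl⟩ := h2 rfl
          obtain ⟨rfl, rfl⟩ := h3 rfl
          simp only [if_true, add_zero]
          have e1 : ((t' % (n + 7) : ℕ) : ℤ) ≡ t' [ZMOD (n + 7 : ℕ)] := by
            push_cast
            exact Int.mod_modEq _ _
          have e2 : ((t % (n + 7) : ℕ) : ℤ) ≡ t [ZMOD (n + 7 : ℕ)] := by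
            push_cast
            exact Int.mod_modEq _ _
          exact e1.trans (hlev.trans (Int.ModEq.add_right _ e2.symm))
        · simp only [Sum.elim_inr] at hp hp'
          obtain ⟨-, rfl, rfl⟩ := hp.inj hp'
          obtain ⟨h1, -, -⟩ := hS s s.2 p i hp
          simp [h1]
      · rintro _ ⟨m | s, rfl⟩ _ ⟨m' | s', rfl⟩ p i p' i' q j q' j' hp hp' hq hq'
        · obtain ⟨-, h2, -⟩ := at_tup hp
          obtain ⟨-, h3, -⟩ := at_tup hp'
          obtain ⟨-, h4, -⟩ := at_tup hq
          obtain ⟨-, h5, -⟩ := at_tup hq'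
          obtain ⟨rfl, -⟩ := h2 rfl
          obtain ⟨rfl, -⟩ := h3 rfl
          obtain ⟨rfl, -⟩ := h4 rfl
          obtain ⟨rfl, -⟩ := h5 rfl
          simp [rho_self]
        · obtain ⟨-, h2, -⟩ := at_tup hp
          obtain ⟨-, h3, -⟩ := at_tup hp'
          obtain ⟨rfl, -⟩ := h2 rfl
          obtain ⟨rfl, -⟩ := h3 rfl
          simp only [Sum.elim_inr] at hq hq'
          obtain ⟨-, rfl, -⟩ := hq.inj hq'
          obtain ⟨h4, h5, h6⟩ := hS s' s'.2 q j hq
          refine ⟨⟨fun h => absurd h.symm h4, fun h => absurd h.symm h5⟩, ?_⟩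
          simp only [if_neg h4, if_true, add_zero]
          exact h6
        · obtain ⟨-, h2, -⟩ := at_tup hq
          obtain ⟨-, h3, -⟩ := at_tup hq'
          obtain ⟨rfl, -⟩ := h2 rfl
          obtain ⟨rfl, -⟩ := h3 rfl
          simp only [Sum.elim_inr] at hp hp'
          obtain ⟨-, rfl, -⟩ := hp.inj hp'
          obtain ⟨h4, h5, h6⟩ := hS s s.2 p i hp
          refine ⟨⟨fun h => absurd h h4, fun h => absurd h h5⟩, ?_⟩
          simp only [if_neg h4, if_true, sub_zero]
          rw [rho_anti q' p, rho_anti q p, h6]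
          ring
        · simp only [Sum.elim_inr] at hp hp' hq hq'
          obtain ⟨-, rfl, -⟩ := hp.inj hp'
          obtain ⟨-, rfl, -⟩ := hq.inj hq'
          obtain ⟨h4, -, -⟩ := hS s s.2 p i hp
          obtain ⟨h5, -, -⟩ := hS s' s'.2 q j hq
          simp [h4, h5]
    · refine (bf_diag {ab | ab ∈ prs (Sum.elim (tup V N x y t) (fun s : S => (s : Cov P V)))
        (Sum.elim (tup V N x y' t') (fun s : S => (s : Cov P V))) ∧ ab.1 = ab.2}
        (fun ab h => h.2)).piece n |>.imp fun s hs => hs.imp fun c hc => ?_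
      obtain ⟨h1, h2, h3⟩ := hc
      have key : ∀ ab ∈ prs (Sum.elim (tup V N x y t) (fun s : S => (s : Cov P V)))
          (Sum.elim (tup V N x y' t') (fun s : S => (s : Cov P V))), ∀ p i, At n ab.1 p i →
          ab.1 = ab.2 := by
        rintro _ ⟨m | s, rfl⟩ p i hp
        · obtain ⟨rfl, -, -⟩ := at_tup hp
          simp only [Sum.elim_inl]
          rw [tup_ne hn, tup_ne hn]
        · rfl
      refine ⟨h1, fun ab hab p i p' i' hp hp' => h2 ab ⟨hab, key ab hab p i hp⟩ p i p' i' hp hp',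
        fun ab hab cd hcd p i p' i' q j q' j' hp hp' hq hq' => h3 ab ⟨hab, key ab hab p i hp⟩ cd
          ⟨hcd, key cd hcd q j hq⟩ p i p' i' q j q' j' hp hp' hq hq'⟩

theorem step1 (hP : Generic P) [Infinite V] {x x₁ : P} (h : ¬ x ≤ x₁) (h' : ¬ x₁ ≤ x) (N t : ℕ) :
    SameType (elQ (V := V) hP (P1 x x₁) (gen1 hP h h')) (tup V N x x t) (tup V N x x₁ (t + 1)) := by
  intro φ
  refine bf_formula hP φ _ _ (bf_step N x x x₁ t (t + 1)
    {z | z ∈ elQ (V := V) hP (P1 x x₁) (gen1 hP h h')} 1 (Or.inr rfl) ?_ ?_)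
  · push_cast
    exact Int.ModEq.refl _
  · intro z hz p i hp
    obtain ⟨h1, h2, h3⟩ := (mem_elQ hP (P1 x x₁) (gen1 hP h h')).1 hz N p i hp
    refine ⟨fun he => h2 he.le, h1.ne, ?_⟩
    have e1 : rho x₁ p = -1 := rho_neg.2 h1
    have e2 : rho x p = 0 := by
      rcases rho_vals x p with e | e | e
      · exact absurd (rho_one.1 e).le h3
      · exact absurd (rho_neg.1 e).le h2
      · exact e
    rw [e1, e2]
    norm_num

theorem step2 (hP : Generic P) [Infinite V] {x x₁ : P} (N t : ℕ) :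
    SameType (elQ (V := V) hP (P2 x x₁) (gen2 hP)) (tup V N x x₁ t) (tup V N x x t) := by
  intro φ
  refine bf_formula hP φ _ _ (bf_step N x x₁ x t t
    {z | z ∈ elQ (V := V) hP (P2 x x₁) (gen2 hP)} 0 (Or.inl rfl) ?_ ?_)
  · rw [add_zero]
  · intro z hz p i hp
    obtain ⟨⟨h1, h2⟩, h3, h4⟩ := (mem_elQ hP (P2 x x₁) (gen2 hP)).1 hz N p i hp
    refine ⟨fun he => h3 he.le, fun he => h1 he.le, ?_⟩
    have e1 : rho x₁ p = 0 := by
      rcases rho_vals x₁ p with e | e | e
      · exact absurd (rho_one.1 e).le h4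
      · exact absurd (rho_neg.1 e).le h3
      · exact e
    have e2 : rho x p = 0 := by
      rcases rho_vals x p with e | e | e
      · exact absurd (rho_one.1 e).le h2
      · exact absurd (rho_neg.1 e).le h1
      · exact e
    rw [e1, e2]
    norm_num

/-- two incomparable elements exist -/
theorem exists_incomp (hP : Generic P) : ∃ x x₁ : P, ¬ x ≤ x₁ ∧ ¬ x₁ ≤ x := by
  classical
  obtain ⟨x, -, -⟩ := hP ∅ ∅ ∅ (Set.subset_univ _) (Set.subset_univ _) (Set.subset_univ _)
    (by simp) (by simp) (by simp)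
  obtain ⟨y, -, -, -, hy⟩ := hP ∅ ∅ {x} (Set.subset_univ _) (Set.subset_univ _)
    (Set.subset_univ _) (by simp) (by simp) (by simp)
  obtain ⟨h1, h2⟩ := hy x (Finset.mem_singleton_self x)
  exact ⟨x, y, h2, h1⟩

/-- turning by `k` has distance at most `2 k` -/
theorem dist_le (hP : Generic P) [Infinite V] {x x₁ : P} (h : ¬ x ≤ x₁) (h' : ¬ x₁ ≤ x)
    (N k : ℕ) : DistLE (L := LC) (2 * k)
      ((ElementaryEmbedding.refl LC (Cov P V)) ∘ tup V N x x 0) (tup V N x x k) := by
  refine ⟨Cov P V, inferInstance, ElementaryEmbedding.refl LC (Cov P V),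
    fun i => if i % 2 = 0 then tup V N x x (i / 2) else tup V N x x₁ (i / 2 + 1),
    fun i => if i % 2 = 0 then elQ (V := V) hP (P1 x x₁) (gen1 hP h h') else
      elQ (V := V) hP (P2 x x₁) (gen2 hP), ?_, ?_, ?_⟩
  · rfl
  · have e1 : (2 * k) % 2 = 0 := by omega
    have e2 : (2 * k) / 2 = k := by omega
    simp only [e1, e2, if_true]
    rfl
  · intro i hi
    rcases Nat.even_or_odd' i with ⟨j, rfl | rfl⟩
    · have e1 : (2 * j) % 2 = 0 := by omega
      have e2 : (2 * j) / 2 = j := by omega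
      have e3 : (2 * j + 1) % 2 ≠ 0 := by omega
      have e4 : (2 * j + 1) / 2 = j := by omega
      simp only [e1, e2, e4, if_true, if_neg e3]
      exact step1 hP h h' N j
    · have e1 : (2 * j + 1 + 1) % 2 = 0 := by omega
      have e2 : (2 * j + 1 + 1) / 2 = j + 1 := by omega
      have e3 : (2 * j + 1) % 2 ≠ 0 := by omega
      have e4 : (2 * j + 1) / 2 = j := by omega
      simp only [e1, e2, e4, if_true, if_neg e3]
      exact step2 hP N (j + 1)

end Pool.Agent.HGC
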